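import Mathlib

/-!
# 3SUM-Indexing with hash functions of wide range: colourings and groups
-/

namespace GGM3

open Finset
open scoped Classical

/-- greedy colouring with small colour classes -/
theorem exists_col {α : Type*} (E : Finset α) (conf : α → α → Prop)
    (hsym : ∀ x y, conf x y → conf y x) (D b : ℕ) (hb : 0 < b)
    (hD : ∀ x ∈ E, (E.filter fun y => conf x y).card ≤ D) (Q : ℕ) (hQ : D + E.card / b < Q) :
    ∃ col : α → ℕ, (∀ x ∈ E, col x < Q) ∧ (∀ x ∈ E, ∀ y ∈ E, x ≠ y → conf x y → col x ≠ col y) ∧
      ∀ c, (E.filter fun x => col x = c).card ≤ b := by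
  have key : ∀ F : Finset α, F ⊆ E → ∃ col : α → ℕ, (∀ x ∈ F, col x < Q) ∧
      (∀ x ∈ F, ∀ y ∈ F, x ≠ y → conf x y → col x ≠ col y) ∧
      ∀ c, (F.filter fun x => col x = c).card ≤ b := by
    intro F
    induction F using Finset.induction_on with
    | empty =>
      intro _
      refine ⟨fun _ => 0, ?_, ?_, ?_⟩
      · intro x hx
        exact absurd hx (Finset.notMem_empty x)
      · intro x hx
        exact absurd hx (Finset.notMem_empty x)
      · intro c
        simp
    | insert a F haF ih =>
      intro hsub
      have haE : a ∈ E := hsub (Finset.mem_insert_self _ _)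
      have hFE : F ⊆ E := fun x hx => hsub (Finset.mem_insert_of_mem hx)
      obtain ⟨col, h1, h2, h3⟩ := ih hFE
      obtain ⟨A, hA⟩ : ∃ A : Finset ℕ, A = (F.filter fun y => conf a y).image col := ⟨_, rfl⟩
      obtain ⟨B, hB⟩ : ∃ B : Finset ℕ, B = (Finset.range Q).filter fun c =>
        b ≤ (F.filter fun x => col x = c).card := ⟨_, rfl⟩
      have hAc : A.card ≤ D := by
        rw [hA]
        refine Finset.card_image_le.trans ((Finset.card_le_card ?_).trans (hD a haE))
        exact Finset.filter_subset_filter _ hFE
      have hBc : B.card ≤ E.card / b := by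
        rw [Nat.le_div_iff_mul_le hb]
        refine le_trans ?_ (Finset.card_le_card hFE)
        calc B.card * b = ∑ _c ∈ B, b := by rw [Finset.sum_const, smul_eq_mul]
          _ ≤ ∑ c ∈ B, (F.filter fun x => col x = c).card := by
              refine Finset.sum_le_sum fun c hc => ?_
              rw [hB, Finset.mem_filter] at hc
              exact hc.2
          _ = ∑ c ∈ B, ((F.filter fun x => col x ∈ B).filter fun x => col x = c).card := by
              refine Finset.sum_congr rfl fun c hc => ?_
              congr 1
              ext x
              simp only [Finset.mem_filter]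
              constructor
              · rintro ⟨hx, rfl⟩
                exact ⟨⟨hx, hc⟩, rfl⟩
              · rintro ⟨⟨hx, -⟩, he⟩
                exact ⟨hx, he⟩
          _ = (F.filter fun x => col x ∈ B).card :=
              (Finset.card_eq_sum_card_fiberwise fun x hx =>
                (Finset.mem_filter.mp (Finset.mem_coe.mp hx)).2).symm
          _ ≤ F.card := Finset.card_filter_le _ _
      obtain ⟨c, hc, hcn⟩ : ∃ c ∈ Finset.range Q, c ∉ A ∪ B := by
        by_contra hcon
        push Not at hcon
        have h4 := Finset.card_le_card (fun c hc => hcon c hc : Finset.range Q ⊆ A ∪ B)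
        have h5 := Finset.card_union_le A B
        rw [Finset.card_range] at h4
        omega
      rw [Finset.mem_union, not_or] at hcn
      have hca : ∀ y ∈ F, conf a y → col y ≠ c := by
        intro y hy hay he
        apply hcn.1
        rw [hA, Finset.mem_image]
        exact ⟨y, Finset.mem_filter.mpr ⟨hy, hay⟩, he⟩
      have hup : ∀ y ∈ F, Function.update col a c y = col y := by
        intro y hy
        rw [Function.update_of_ne]
        rintro rfl
        exact haF hy
      refine ⟨Function.update col a c, ?_, ?_, ?_⟩
      · intro x hx
        rw [Finset.mem_insert] at hx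
        rcases hx with rfl | hx
        · rw [Function.update_self]
          exact Finset.mem_range.mp hc
        · rw [hup x hx]
          exact h1 x hx
      · intro x hx y hy hxy hconf
        rw [Finset.mem_insert] at hx hy
        rcases hx with rfl | hx
        · rcases hy with rfl | hy
          · exact absurd rfl hxy
          · rw [Function.update_self, hup y hy]
            exact (hca y hy hconf).symm
        · rcases hy with rfl | hy
          · rw [Function.update_self, hup x hx]
            exact hca x hx (hsym _ _ hconf)
          · rw [hup x hx, hup y hy]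
            exact h2 x hx y hy hxy hconf
      · intro c'
        by_cases hcc : c' = c
        · rw [hcc]
          have h4 : ((insert a F).filter fun x => Function.update col a c x = c) =
              insert a (F.filter fun x => col x = c) := by
            ext x
            rw [Finset.mem_filter, Finset.mem_insert, Finset.mem_insert, Finset.mem_filter]
            constructor
            · rintro ⟨rfl | hx, he⟩
              · exact Or.inl rfl
              · rw [hup x hx] at he
                exact Or.inr ⟨hx, he⟩
            · rintro (rfl | ⟨hx, he⟩)
              · exact ⟨Or.inl rfl, Function.update_self _ _ _⟩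
              · exact ⟨Or.inr hx, by rw [hup x hx]; exact he⟩
          rw [h4]
          refine (Finset.card_insert_le _ _).trans ?_
          have h5 : ¬ b ≤ (F.filter fun x => col x = c).card := by
            intro h6
            apply hcn.2
            rw [hB, Finset.mem_filter]
            exact ⟨hc, h6⟩
          omega
        · refine le_trans (Finset.card_le_card ?_) (h3 c')
          intro x hx
          rw [Finset.mem_filter, Finset.mem_insert] at hx
          obtain ⟨rfl | hx, he⟩ := hx
          · rw [Function.update_self] at he
            exact absurd he.symm hcc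
          · rw [hup x hx] at he
            exact Finset.mem_filter.mpr ⟨hx, he⟩
  exact key E (Finset.Subset.refl E)

/-- groups of size `κ` inside of the fibres -/
theorem exists_grp {α β : Type*} (f : α → β) (X : Finset β) (κ : ℕ) (hκ : 0 < κ) (m : ℕ) :
    ∀ E : Finset α, E.card = m → (∀ x ∈ E, f x ∈ X) →
    ∃ (E' : Finset α) (grp : α → ℕ), E' ⊆ E ∧
      (∀ x ∈ E', (E'.filter fun y => grp y = grp x).card = κ) ∧
      (∀ x ∈ E', ∀ y ∈ E', grp x = grp y → f x = f y) ∧ E.card ≤ E'.card + X.card * κ := by
  induction m using Nat.strong_induction_on with
  | _ m ih =>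
    intro E hEm hE
    by_cases hbig : ∃ β₀, κ ≤ (E.filter fun x => f x = β₀).card
    · obtain ⟨β₀, hβ⟩ := hbig
      obtain ⟨T, hT, hTc⟩ := Finset.exists_subset_card_eq hβ
      have hTE : T ⊆ E := hT.trans (Finset.filter_subset _ _)
      have hTf : ∀ x ∈ T, f x = β₀ := fun x hx => (Finset.mem_filter.mp (hT hx)).2
      have hc1 : (E \ T).card + κ = E.card := by
        rw [← hTc]
        exact Finset.card_sdiff_add_card_eq_card hTE
      obtain ⟨E₁, grp, h1, h2, h3, h4⟩ := ih (E \ T).card (by omega) (E \ T) rfl
        (fun x hx => hE x (Finset.sdiff_subset hx))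
      have hdis : ∀ x ∈ E₁, x ∉ T := fun x hx => (Finset.mem_sdiff.mp (h1 hx)).2
      obtain ⟨N, hN⟩ : ∃ N : ℕ, N = E₁.sup grp + 1 := ⟨_, rfl⟩
      have hlt : ∀ x ∈ E₁, grp x ≠ N := by
        intro x hx he
        have := Finset.le_sup (f := grp) hx
        omega
      obtain ⟨g, hg⟩ : ∃ g : α → ℕ, g = fun x => if x ∈ T then N else grp x := ⟨_, rfl⟩
      have hg1 : ∀ x ∈ T, g x = N := fun x hx => by rw [hg]; simp only [if_pos hx]
      have hg2 : ∀ x ∈ E₁, g x = grp x := fun x hx => by rw [hg]; simp only [if_neg (hdis x hx)]
      refine ⟨E₁ ∪ T, g, ?_, ?_, ?_, ?_⟩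
      · exact Finset.union_subset (h1.trans Finset.sdiff_subset) hTE
      · intro x hx
        rcases Finset.mem_union.mp hx with hx | hx
        · rw [hg2 x hx]
          refine Eq.trans (congrArg Finset.card ?_) (h2 x hx)
          ext y
          rw [Finset.mem_filter, Finset.mem_filter, Finset.mem_union]
          constructor
          · rintro ⟨hy | hy, he⟩
            · rw [hg2 y hy] at he
              exact ⟨hy, he⟩
            · rw [hg1 y hy] at he
              exact absurd he.symm (hlt x hx)
          · rintro ⟨hy, he⟩
            exact ⟨Or.inl hy, by rw [hg2 y hy]; exact he⟩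
        · rw [hg1 x hx]
          refine Eq.trans (congrArg Finset.card ?_) hTc
          ext y
          rw [Finset.mem_filter, Finset.mem_union]
          constructor
          · rintro ⟨hy | hy, he⟩
            · rw [hg2 y hy] at he
              exact absurd he (hlt y hy)
            · exact hy
          · intro hy
            exact ⟨Or.inr hy, hg1 y hy⟩
      · intro x hx y hy he
        rcases Finset.mem_union.mp hx with hx | hx <;> rcases Finset.mem_union.mp hy with hy | hy
        · rw [hg2 x hx, hg2 y hy] at he
          exact h3 x hx y hy he
        · rw [hg2 x hx, hg1 y hy] at he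
          exact absurd he (hlt x hx)
        · rw [hg1 x hx, hg2 y hy] at he
          exact absurd he.symm (hlt y hy)
        · rw [hTf x hx, hTf y hy]
      · rw [Finset.card_union_of_disjoint (Finset.disjoint_left.mpr hdis), hTc]
        omega
    · push Not at hbig
      refine ⟨∅, fun _ => 0, Finset.empty_subset _, ?_, ?_, ?_⟩
      · intro x hx
        exact absurd hx (Finset.notMem_empty x)
      · intro x hx
        exact absurd hx (Finset.notMem_empty x)
      · rw [Finset.card_empty, Nat.zero_add, Finset.card_eq_sum_card_fiberwise (s := E) (t := X)
          (f := f) fun x hx => hE x (Finset.mem_coe.mp hx)]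
        calc ∑ β ∈ X, (E.filter fun x => f x = β).card ≤ ∑ _β ∈ X, κ :=
              Finset.sum_le_sum fun β _ => (hbig β).le
          _ = _ := by rw [Finset.sum_const, smul_eq_mul]

end GGM3
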