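import Mathlib

/-!
# 3SUM-Indexing with hash functions of wide range: sampling of classes
-/

namespace GGM3

open Finset
open scoped Classical

variable {U ω V : Type*} [Fintype U] [DecidableEq V]

theorem card_zero (R : ℕ) (hR : 0 < R) (T : Finset U) :
    ((univ : Finset (U → Fin R)).filter fun f => ∀ u ∈ T, (f u : ℕ) = 0).card * R ^ T.card =
      R ^ Fintype.card U := by
  have h1 : ((univ : Finset (U → Fin R)).filter fun f => ∀ u ∈ T, (f u : ℕ) = 0) =
      Fintype.piFinset fun u => if u ∈ T then {(⟨0, hR⟩ : Fin R)} else univ := by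
    ext f
    rw [Finset.mem_filter, Fintype.mem_piFinset]
    constructor
    · rintro ⟨-, h⟩ u
      by_cases hu : u ∈ T
      · rw [if_pos hu, Finset.mem_singleton]
        exact Fin.ext (h u hu)
      · rw [if_neg hu]
        exact Finset.mem_univ _
    · intro h
      refine ⟨Finset.mem_univ _, fun u hu => ?_⟩
      have h2 := h u
      rw [if_pos hu, Finset.mem_singleton] at h2
      rw [h2]
  have h2 : ∀ u : U, (if u ∈ T then {(⟨0, hR⟩ : Fin R)} else (univ : Finset (Fin R))).card =
      if u ∈ T then 1 else R := by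
    intro u
    split_ifs
    · rfl
    · rw [Finset.card_univ, Fintype.card_fin]
  rw [h1, Fintype.card_piFinset, Finset.prod_congr rfl fun u _ => h2 u, Finset.prod_ite,
    Finset.prod_const_one, one_mul, Finset.prod_const, ← pow_add]
  congr 1
  have h3 : (univ.filter fun u : U => u ∉ T) = univ \ T := by
    ext u
    simp
  rw [h3, Finset.card_sdiff_add_card_eq_card (Finset.subset_univ T), Finset.card_univ]

theorem few_images (O : Finset ω) (v : ω → V) :
    6 * O.card ≤ (∑ o ∈ O, (O.filter fun o' => v o' = v o ∧ o' ≠ o).card) +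
      12 * (O.image v).card := by
  have hmap : ∀ o ∈ O, v o ∈ O.image v := fun o ho => Finset.mem_image_of_mem v ho
  have h1 : O.card = ∑ i ∈ O.image v, (O.filter fun o => v o = i).card :=
    Finset.card_eq_sum_card_fiberwise fun o ho => Finset.mem_coe.mpr (hmap o (Finset.mem_coe.mp ho))
  have h2 : (∑ o ∈ O, (O.filter fun o' => v o' = v o ∧ o' ≠ o).card) =
      ∑ i ∈ O.image v, (O.filter fun o => v o = i).card *
        ((O.filter fun o => v o = i).card - 1) := by
    rw [← Finset.sum_fiberwise_of_maps_to hmap]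
    refine Finset.sum_congr rfl fun i _ => ?_
    rw [← smul_eq_mul, ← Finset.sum_const]
    refine Finset.sum_congr rfl fun o ho => ?_
    rw [Finset.mem_filter] at ho
    have h3 : (O.filter fun o' => v o' = v o ∧ o' ≠ o) = (O.filter fun o => v o = i).erase o := by
      ext o'
      rw [Finset.mem_filter, Finset.mem_erase, Finset.mem_filter, ho.2]
      tauto
    rw [h3, Finset.card_erase_of_mem (Finset.mem_filter.mpr ho)]
  rw [h2]
  calc 6 * O.card = ∑ i ∈ O.image v, 6 * (O.filter fun o => v o = i).card := by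
        rw [← Finset.mul_sum, ← h1]
    _ ≤ ∑ i ∈ O.image v, ((O.filter fun o => v o = i).card *
        ((O.filter fun o => v o = i).card - 1) + 12) := by
        refine Finset.sum_le_sum fun i _ => ?_
        generalize (O.filter fun o => v o = i).card = D
        rcases le_or_gt D 7 with h | h
        · interval_cases D <;> norm_num
        · obtain ⟨E, rfl⟩ : ∃ E, D = E + 8 := ⟨D - 8, by omega⟩
          have : E + 8 - 1 = E + 7 := by omega
          rw [this]
          nlinarith
    _ = _ := by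
        rw [Finset.sum_add_distrib, Finset.sum_const, smul_eq_mul]
        ring

theorem samp (O : Finset ω) (a b : ω → U) (v : ω → V) (R c3 c3' c4 : ℕ) (hR : 0 < R)
    (h1 : ∀ o₁ ∈ O, ∀ o₂ ∈ O, v o₁ = v o₂ → a o₁ = a o₂ → b o₁ = b o₂ → o₁ = o₂)
    (h3 : ∀ o₁ ∈ O, (O.filter fun o₂ => v o₂ = v o₁ ∧ o₂ ≠ o₁ ∧ a o₂ = a o₁).card ≤ c3)
    (h3' : ∀ o₁ ∈ O, (O.filter fun o₂ => v o₂ = v o₁ ∧ b o₂ = b o₁).card ≤ c3')
    (h4 : ∀ o₁ ∈ O, (O.filter fun o₂ => v o₂ = v o₁).card ≤ c4)
    (hbig : O.card * (c4 + (c3 + c3') * R) + 384 * Fintype.card U * R ^ 3 <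
      6 * O.card * R ^ 2) :
    ∃ W₁ W₂ : Finset U, 16 * (W₁.card + W₂.card) <
      ((O.filter fun o => a o ∈ W₁ ∧ b o ∈ W₂).image v).card := by
  by_contra hcon
  push Not at hcon
  obtain ⟨Z, hZ⟩ : ∃ Z : (U → Fin R) → Finset U, ∀ f u, u ∈ Z f ↔ (f u : ℕ) = 0 :=
    ⟨fun f => univ.filter fun u => (f u : ℕ) = 0, fun f u => by simp⟩
  obtain ⟨z, hz⟩ : ∃ z : Finset U → ℕ, ∀ T, z T =
      ((univ : Finset (U → Fin R)).filter fun f => ∀ u ∈ T, (f u : ℕ) = 0).card :=
    ⟨_, fun _ => rfl⟩
  have hzc : ∀ T, z T * R ^ T.card = R ^ Fintype.card U := fun T => by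
    rw [hz]
    exact card_zero R hR T
  have hz1 : ∀ u, (∑ f : U → Fin R, if u ∈ Z f then 1 else 0) = z {u} := by
    intro u
    rw [hz, Finset.card_filter]
    refine Finset.sum_congr rfl fun f _ => ?_
    simp only [hZ, Finset.mem_singleton, forall_eq]
  have hz2 : ∀ u u', (∑ f : U → Fin R, if u ∈ Z f ∧ u' ∈ Z f then 1 else 0) = z {u, u'} := by
    intro u u'
    rw [hz, Finset.card_filter]
    refine Finset.sum_congr rfl fun f _ => ?_
    simp only [hZ, Finset.mem_insert, Finset.mem_singleton, forall_eq_or_imp, forall_eq]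
  obtain ⟨q, hq⟩ : ∃ q : ℕ, q = R ^ Fintype.card U := ⟨_, rfl⟩
  have hq0 : 0 < q := by rw [hq]; exact pow_pos hR _
  have hs1 : ∀ u : U, z {u} * R = q := by
    intro u
    have := hzc {u}
    rwa [Finset.card_singleton, pow_one, ← hq] at this
  have hs2 : ∀ u u' : U, u ≠ u' → z {u, u'} * R ^ 2 = q := by
    intro u u' h
    have := hzc {u, u'}
    rwa [Finset.card_pair h, ← hq] at this
  -- the sets in use
  have hpt : ∀ f g : U → Fin R,
      6 * (∑ o ∈ O, if a o ∈ Z f ∧ b o ∈ Z g then 1 else 0) ≤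
        (∑ o ∈ O, ∑ o' ∈ O.filter (fun o' => v o' = v o ∧ o' ≠ o),
          (if a o ∈ Z f ∧ a o' ∈ Z f then 1 else 0) * (if b o ∈ Z g ∧ b o' ∈ Z g then 1 else 0)) +
        192 * ((∑ u, if u ∈ Z f then 1 else 0) + ∑ u, if u ∈ Z g then 1 else 0) := by
    intro f g
    have e1 := few_images (O.filter fun o => a o ∈ Z f ∧ b o ∈ Z g) v
    have e2 := hcon (Z f) (Z g)
    have e3 : (∑ u, if u ∈ Z f then 1 else 0) = (Z f).card := by
      rw [← Finset.card_filter]
      congr 1
      ext u
      simp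
    have e4 : (∑ u, if u ∈ Z g then 1 else 0) = (Z g).card := by
      rw [← Finset.card_filter]
      congr 1
      ext u
      simp
    have e5 : (∑ o ∈ O.filter (fun o => a o ∈ Z f ∧ b o ∈ Z g),
        ((O.filter fun o => a o ∈ Z f ∧ b o ∈ Z g).filter fun o' => v o' = v o ∧ o' ≠ o).card) ≤
        ∑ o ∈ O, ∑ o' ∈ O.filter (fun o' => v o' = v o ∧ o' ≠ o),
          (if a o ∈ Z f ∧ a o' ∈ Z f then 1 else 0) *
            (if b o ∈ Z g ∧ b o' ∈ Z g then 1 else 0) := by
      rw [Finset.sum_filter]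
      refine Finset.sum_le_sum fun o _ => ?_
      split_ifs with h
      · rw [Finset.filter_filter, Finset.card_filter, Finset.sum_filter]
        refine Finset.sum_le_sum fun o' _ => ?_
        by_cases h5 : v o' = v o ∧ o' ≠ o
        · rw [if_pos h5]
          by_cases h6 : a o' ∈ Z f ∧ b o' ∈ Z g
          · rw [if_pos ⟨h6, h5⟩, if_pos ⟨h.1, h6.1⟩, if_pos ⟨h.2, h6.2⟩]
          · rw [if_neg fun h7 => h6 h7.1]
            exact Nat.zero_le _
        · rw [if_neg h5, if_neg fun h7 => h5 h7.2]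
      · exact Nat.zero_le _
    rw [e3, e4, ← Finset.card_filter]
    omega
  -- the sum over all samples
  have hsum := Finset.sum_le_sum fun f (_ : f ∈ (univ : Finset (U → Fin R))) =>
    Finset.sum_le_sum fun g (_ : g ∈ (univ : Finset (U → Fin R))) => hpt f g
  simp only [Finset.sum_add_distrib, ← Finset.mul_sum] at hsum
  have hA : (∑ f : U → Fin R, ∑ g : U → Fin R, ∑ o ∈ O, if a o ∈ Z f ∧ b o ∈ Z g then 1 else 0) =
      ∑ o ∈ O, z {a o} * z {b o} := by
    have e1 : ∀ f : U → Fin R, (∑ g : U → Fin R, ∑ o ∈ O, if a o ∈ Z f ∧ b o ∈ Z g then 1 else 0) =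
        ∑ o ∈ O, (if a o ∈ Z f then 1 else 0) * z {b o} := by
      intro f
      rw [Finset.sum_comm]
      refine Finset.sum_congr rfl fun o _ => ?_
      rw [← hz1, Finset.mul_sum]
      refine Finset.sum_congr rfl fun g _ => ?_
      by_cases h : a o ∈ Z f <;> by_cases h' : b o ∈ Z g <;> simp [h, h']
    rw [Finset.sum_congr rfl fun f _ => e1 f, Finset.sum_comm]
    refine Finset.sum_congr rfl fun o _ => ?_
    rw [← Finset.sum_mul, hz1]
  have hB : (∑ f : U → Fin R, ∑ g : U → Fin R,
      ∑ o ∈ O, ∑ o' ∈ O.filter (fun o' => v o' = v o ∧ o' ≠ o),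
          (if a o ∈ Z f ∧ a o' ∈ Z f then 1 else 0) * (if b o ∈ Z g ∧ b o' ∈ Z g then 1 else 0)) =
      ∑ o ∈ O, ∑ o' ∈ O.filter (fun o' => v o' = v o ∧ o' ≠ o),
        z {a o, a o'} * z {b o, b o'} := by
    have e1 : ∀ f : U → Fin R, (∑ g : U → Fin R,
        ∑ o ∈ O, ∑ o' ∈ O.filter (fun o' => v o' = v o ∧ o' ≠ o),
          (if a o ∈ Z f ∧ a o' ∈ Z f then 1 else 0) * (if b o ∈ Z g ∧ b o' ∈ Z g then 1 else 0)) =
        ∑ o ∈ O, ∑ o' ∈ O.filter (fun o' => v o' = v o ∧ o' ≠ o),
          (if a o ∈ Z f ∧ a o' ∈ Z f then 1 else 0) * z {b o, b o'} := by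
      intro f
      rw [Finset.sum_comm]
      refine Finset.sum_congr rfl fun o _ => ?_
      rw [Finset.sum_comm]
      refine Finset.sum_congr rfl fun o' _ => ?_
      rw [← hz2, Finset.mul_sum]
    rw [Finset.sum_congr rfl fun f _ => e1 f, Finset.sum_comm]
    refine Finset.sum_congr rfl fun o _ => ?_
    rw [Finset.sum_comm]
    refine Finset.sum_congr rfl fun o' _ => ?_
    rw [← Finset.sum_mul, hz2]
  have hcU : Fintype.card (U → Fin R) = q := by
    rw [hq, Fintype.card_fun, Fintype.card_fin]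
  have hC1 : (∑ f : U → Fin R, ∑ _g : U → Fin R, ∑ u, if u ∈ Z f then 1 else 0) =
      q * ∑ u, z {u} := by
    have e1 : ∀ f : U → Fin R, (∑ _g : U → Fin R, ∑ u, if u ∈ Z f then 1 else 0) =
        q * ∑ u, if u ∈ Z f then 1 else 0 := by
      intro f
      rw [Finset.sum_const, Finset.card_univ, hcU, smul_eq_mul]
    rw [Finset.sum_congr rfl fun f _ => e1 f, ← Finset.mul_sum, Finset.sum_comm]
    congr 1
    exact Finset.sum_congr rfl fun u _ => hz1 u
  have hC2 : (∑ _f : U → Fin R, ∑ g : U → Fin R, ∑ u, if u ∈ Z g then 1 else 0) =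
      q * ∑ u, z {u} := by
    rw [Finset.sum_const, Finset.card_univ, hcU, smul_eq_mul, Finset.sum_comm]
    congr 1
    exact Finset.sum_congr rfl fun u _ => hz1 u
  rw [hA, hB, hC1, hC2] at hsum
  -- multiplication by `R ^ 4`
  have eA : (∑ o ∈ O, z {a o} * z {b o}) * R ^ 4 = O.card * (q * q) * R ^ 2 := by
    rw [Finset.sum_mul]
    have : ∀ o ∈ O, z {a o} * z {b o} * R ^ 4 = (q * q) * R ^ 2 := by
      intro o _
      calc z {a o} * z {b o} * R ^ 4 = (z {a o} * R) * (z {b o} * R) * R ^ 2 := by ring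
        _ = _ := by rw [hs1, hs1]
    rw [Finset.sum_congr rfl this, Finset.sum_const, smul_eq_mul]
    ring
  have eC : (∑ u, z {u}) * R ^ 4 = Fintype.card U * q * R ^ 3 := by
    rw [Finset.sum_mul]
    have : ∀ u ∈ (univ : Finset U), z {u} * R ^ 4 = q * R ^ 3 := by
      intro u _
      calc z {u} * R ^ 4 = (z {u} * R) * R ^ 3 := by ring
        _ = _ := by rw [hs1]
    rw [Finset.sum_congr rfl this, Finset.sum_const, smul_eq_mul, Finset.card_univ]
    ring
  have eB : (∑ o ∈ O, ∑ o' ∈ O.filter (fun o' => v o' = v o ∧ o' ≠ o),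
        z {a o, a o'} * z {b o, b o'}) * R ^ 4 ≤ O.card * (c4 + (c3 + c3') * R) * (q * q) := by
    rw [Finset.sum_mul]
    calc ∑ o ∈ O, (∑ o' ∈ O.filter (fun o' => v o' = v o ∧ o' ≠ o),
          z {a o, a o'} * z {b o, b o'}) * R ^ 4
        ≤ ∑ _o ∈ O, (c4 + (c3 + c3') * R) * (q * q) := by
          refine Finset.sum_le_sum fun o ho => ?_
          rw [Finset.sum_mul]
          have e1 : ∀ o' ∈ O.filter (fun o' => v o' = v o ∧ o' ≠ o),
              z {a o, a o'} * z {b o, b o'} * R ^ 4 ≤
                (1 + ((if a o' = a o then 1 else 0) + (if b o' = b o then 1 else 0)) * R) *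
                  (q * q) := by
            intro o' ho'
            rw [Finset.mem_filter] at ho'
            obtain ⟨ho', hv, hne⟩ := ho'
            by_cases ha : a o' = a o
            · have hb : b o' ≠ b o := fun hb => hne (h1 o' ho' o ho hv ha hb)
              rw [if_pos ha, if_neg hb, ha, Finset.pair_eq_singleton]
              calc z {a o} * z {b o, b o'} * R ^ 4
                  = (z {a o} * R) * (z {b o, b o'} * R ^ 2) * R := by ring
                _ = q * q * R := by rw [hs1, hs2 _ _ hb.symm]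
                _ ≤ _ := by nlinarith [Nat.zero_le (q * q)]
            · by_cases hb : b o' = b o
              · rw [if_neg ha, if_pos hb, hb, Finset.pair_eq_singleton]
                calc z {a o, a o'} * z {b o} * R ^ 4
                    = (z {a o, a o'} * R ^ 2) * (z {b o} * R) * R := by ring
                  _ = q * q * R := by rw [hs1, hs2 _ _ (Ne.symm ha)]
                  _ ≤ _ := by nlinarith [Nat.zero_le (q * q)]
              · rw [if_neg ha, if_neg hb]
                calc z {a o, a o'} * z {b o, b o'} * R ^ 4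
                    = (z {a o, a o'} * R ^ 2) * (z {b o, b o'} * R ^ 2) := by ring
                  _ = q * q := by rw [hs2 _ _ (Ne.symm ha), hs2 _ _ (Ne.symm hb)]
                  _ ≤ _ := by simp
          refine (Finset.sum_le_sum e1).trans ?_
          rw [← Finset.sum_mul]
          refine Nat.mul_le_mul_right _ ?_
          rw [Finset.sum_add_distrib, Finset.sum_const, smul_eq_mul, mul_one, ← Finset.sum_mul,
            Finset.sum_add_distrib, ← Finset.card_filter, ← Finset.card_filter]
          have g1 : (O.filter fun o' => v o' = v o ∧ o' ≠ o).card ≤ c4 :=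
            (Finset.card_le_card fun o' h => by
              rw [Finset.mem_filter] at h ⊢
              exact ⟨h.1, h.2.1⟩).trans (h4 o ho)
          have g2 : ((O.filter fun o' => v o' = v o ∧ o' ≠ o).filter fun o' => a o' = a o).card ≤
              c3 := (Finset.card_le_card fun o' h => by
              rw [Finset.mem_filter, Finset.mem_filter] at h
              rw [Finset.mem_filter]
              exact ⟨h.1.1, h.1.2.1, h.1.2.2, h.2⟩).trans (h3 o ho)
          have g3 : ((O.filter fun o' => v o' = v o ∧ o' ≠ o).filter fun o' => b o' = b o).card ≤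
              c3' := (Finset.card_le_card fun o' h => by
              rw [Finset.mem_filter, Finset.mem_filter] at h
              rw [Finset.mem_filter]
              exact ⟨h.1.1, h.1.2.1, h.2⟩).trans (h3' o ho)
          exact Nat.add_le_add g1 (Nat.mul_le_mul_right _ (Nat.add_le_add g2 g3))
      _ = _ := by
          rw [Finset.sum_const, smul_eq_mul]
          ring
  have hfin : 6 * O.card * R ^ 2 * (q * q) ≤
      (O.card * (c4 + (c3 + c3') * R) + 384 * Fintype.card U * R ^ 3) * (q * q) := by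
    calc 6 * O.card * R ^ 2 * (q * q) = 6 * ((∑ o ∈ O, z {a o} * z {b o}) * R ^ 4) := by
          rw [eA]
          ring
      _ = (6 * (∑ o ∈ O, z {a o} * z {b o})) * R ^ 4 := by ring
      _ ≤ ((∑ o ∈ O, ∑ o' ∈ O.filter (fun o' => v o' = v o ∧ o' ≠ o),
            z {a o, a o'} * z {b o, b o'}) + 192 * (q * (∑ u, z {u}) + q * ∑ u, z {u})) *
            R ^ 4 := Nat.mul_le_mul_right _ hsum
      _ = (∑ o ∈ O, ∑ o' ∈ O.filter (fun o' => v o' = v o ∧ o' ≠ o),
            z {a o, a o'} * z {b o, b o'}) * R ^ 4 + 384 * q * ((∑ u, z {u}) * R ^ 4) := by ring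
      _ ≤ O.card * (c4 + (c3 + c3') * R) * (q * q) + 384 * q * (Fintype.card U * q * R ^ 3) := by
          rw [eC]
          exact Nat.add_le_add_right eB _
      _ = _ := by ring
  exact absurd (Nat.le_of_mul_le_mul_right hfin (Nat.mul_pos hq0 hq0)) (not_le.mpr hbig)

end GGM3
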