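import Pool.Agent.H.MP_0427c5_lc.wh.Gre
import Pool.Agent.H.MP_0427c5_lc.wh.Samp

/-!
# 3SUM-Indexing with hash functions of wide range: the combinatorial core
-/

namespace GGM3

open Finset
open scoped Classical

section

variable {n : ℕ} {U : Type*}

/-- ordered pairs of different edges of one group -/
noncomputable def O0 (E : Finset (Fin n × Fin n)) (grp : Fin n × Fin n → ℕ) :
    Finset ((Fin n × Fin n) × (Fin n × Fin n)) :=
  (E ×ˢ E).filter fun o => grp o.1 = grp o.2 ∧ o.1 ≠ o.2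

theorem mem_O0 {E : Finset (Fin n × Fin n)} {grp : Fin n × Fin n → ℕ}
    {o : (Fin n × Fin n) × (Fin n × Fin n)} :
    o ∈ O0 E grp ↔ o.1 ∈ E ∧ o.2 ∈ E ∧ grp o.1 = grp o.2 ∧ o.1 ≠ o.2 := by
  unfold O0
  rw [Finset.mem_filter, Finset.mem_product]
  tauto

/-- the number of pairs with second class `u` and an end `i` in the first edge -/
noncomputable def mm (E : Finset (Fin n × Fin n)) (grp : Fin n × Fin n → ℕ)
    (cl : Fin n × Fin n → U) (u : U) (i : Fin n) : ℕ :=
  ((O0 E grp).filter fun o => cl o.2 = u ∧ (o.1.1 = i ∨ o.1.2 = i)).card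

/-- `v` can be used as the new index for the pair `o` -/
def Pv (E : Finset (Fin n × Fin n)) (grp : Fin n × Fin n → ℕ) (cl : Fin n × Fin n → U) (R : ℕ)
    (o : (Fin n × Fin n) × (Fin n × Fin n)) (v : Fin n) : Prop :=
  v ≠ o.2.1 ∧ v ≠ o.2.2 ∧ mm E grp cl (cl o.2) v ≤ R

/-- the first edge, the new index first -/
noncomputable def qq (E : Finset (Fin n × Fin n)) (grp : Fin n × Fin n → ℕ)
    (cl : Fin n × Fin n → U) (R : ℕ) (o : (Fin n × Fin n) × (Fin n × Fin n)) : Fin n × Fin n :=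
  if Pv E grp cl R o o.1.1 then o.1 else (o.1.2, o.1.1)

variable {E : Finset (Fin n × Fin n)} {cl : Fin n × Fin n → U} {grp : Fin n × Fin n → ℕ}
  {κ b R : ℕ}

theorem card_snd (hgrp : ∀ z ∈ E, (E.filter fun y => grp y = grp z).card = κ) {z : Fin n × Fin n}
    (hz : z ∈ E) : ((O0 E grp).filter fun o => o.2 = z).card = κ - 1 := by
  rw [← hgrp z hz]
  have h1 : ((E.filter fun y => grp y = grp z).erase z).card =
      (E.filter fun y => grp y = grp z).card - 1 :=
    Finset.card_erase_of_mem (Finset.mem_filter.mpr ⟨hz, rfl⟩)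
  rw [← h1]
  refine Finset.card_bij (fun o _ => o.1) ?_ ?_ ?_
  · intro o ho
    rw [Finset.mem_filter, mem_O0] at ho
    obtain ⟨⟨g1, g2, g3, g4⟩, he⟩ := ho
    rw [he] at g3 g4
    exact Finset.mem_erase.mpr ⟨g4, Finset.mem_filter.mpr ⟨g1, g3⟩⟩
  · intro o ho o' ho' he
    rw [Finset.mem_filter] at ho ho'
    exact Prod.ext he (ho.2.trans ho'.2.symm)
  · intro y hy
    rw [Finset.mem_erase, Finset.mem_filter] at hy
    exact ⟨(y, z), Finset.mem_filter.mpr ⟨mem_O0.mpr ⟨hy.2.1, hz, hy.2.2, hy.1⟩, rfl⟩, rfl⟩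

theorem card_sndclass (hgrp : ∀ z ∈ E, (E.filter fun y => grp y = grp z).card = κ) (u : U) :
    ((O0 E grp).filter fun o => cl o.2 = u).card = (E.filter fun z => cl z = u).card * (κ - 1) := by
  rw [Finset.card_eq_sum_card_fiberwise (s := (O0 E grp).filter fun o => cl o.2 = u)
    (t := E.filter fun z => cl z = u) (f := fun o => o.2)]
  · rw [← smul_eq_mul, ← Finset.sum_const]
    refine Finset.sum_congr rfl fun z hz => ?_
    rw [Finset.mem_filter] at hz
    rw [← card_snd hgrp hz.1, Finset.filter_filter]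
    congr 1
    refine Finset.filter_congr fun o _ => ?_
    constructor
    · exact fun h => h.2
    · intro h
      rw [h]
      exact ⟨hz.2, rfl⟩
  · intro o ho
    rw [Finset.mem_coe, Finset.mem_filter, mem_O0] at ho
    exact Finset.mem_coe.mpr (Finset.mem_filter.mpr ⟨ho.1.2.1, ho.2⟩)

theorem card_O0 (hgrp : ∀ z ∈ E, (E.filter fun y => grp y = grp z).card = κ) :
    (O0 E grp).card = E.card * (κ - 1) := by
  have h := card_sndclass (cl := fun _ => ()) hgrp ()
  simpa using h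

/-- the heavy indices are few -/
theorem heavy (hE : ∀ z ∈ E, z.1 < z.2)
    (hgrp : ∀ z ∈ E, (E.filter fun y => grp y = grp z).card = κ) (u : U) :
    (univ.filter fun i => ¬ mm E grp cl u i ≤ R).card * R ≤
      2 * ((E.filter fun z => cl z = u).card * (κ - 1)) := by
  rw [← card_sndclass hgrp u]
  calc (univ.filter fun i => ¬ mm E grp cl u i ≤ R).card * R
      = ∑ _i ∈ univ.filter fun i => ¬ mm E grp cl u i ≤ R, R := by
        rw [Finset.sum_const, smul_eq_mul]
    _ ≤ ∑ i ∈ univ.filter fun i => ¬ mm E grp cl u i ≤ R, mm E grp cl u i := by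
        refine Finset.sum_le_sum fun i hi => ?_
        have := (Finset.mem_filter.mp hi).2
        omega
    _ ≤ ∑ i, mm E grp cl u i := Finset.sum_le_sum_of_subset (Finset.filter_subset _ _)
    _ = ∑ o ∈ (O0 E grp).filter fun o => cl o.2 = u,
          (univ.filter fun i => o.1.1 = i ∨ o.1.2 = i).card := by
        unfold mm
        simp only [← Finset.filter_filter, Finset.card_filter]
        rw [Finset.sum_comm]
    _ ≤ ∑ _o ∈ (O0 E grp).filter fun o => cl o.2 = u, 2 := by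
        refine Finset.sum_le_sum fun o _ => ?_
        refine le_trans (Finset.card_le_card (t := {o.1.1, o.1.2}) fun i hi => ?_)
          Finset.card_le_two
        rw [Finset.mem_filter] at hi
        rw [Finset.mem_insert, Finset.mem_singleton]
        rcases hi.2 with h | h
        · exact Or.inl h.symm
        · exact Or.inr h.symm
    _ = _ := by
        rw [Finset.sum_const, smul_eq_mul, mul_comm]

/-- few pairs of one class are bad -/
theorem bad_class (hE : ∀ z ∈ E, z.1 < z.2)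
    (hgrp : ∀ z ∈ E, (E.filter fun y => grp y = grp z).card = κ)
    (hcl : ∀ z ∈ E, ∀ y ∈ E, z ≠ y → grp z = grp y → cl z ≠ cl y)
    (hb : ∀ u, (E.filter fun z => cl z = u).card ≤ b)
    (hR0 : 0 < R) (hR1 : κ ≤ R) (hR2 : 48 * b ≤ R) (u : U) :
    4 * ((O0 E grp).filter fun o => cl o.2 = u ∧ ¬ (Pv E grp cl R o o.1.1 ∨
      Pv E grp cl R o o.1.2)).card ≤ (E.filter fun z => cl z = u).card * (κ - 1) := by
  obtain ⟨H, hH⟩ : ∃ H : Finset (Fin n), H = univ.filter fun i => ¬ mm E grp cl u i ≤ R :=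
    ⟨_, rfl⟩
  obtain ⟨M, hM⟩ : ∃ M : Finset (Fin n × Fin n), M = E.filter fun z => cl z = u := ⟨_, rfl⟩
  have hheavy := heavy (cl := cl) (R := R) hE hgrp u
  have hMb := hb u
  rw [← hH, ← hM] at hheavy
  rw [← hM] at hMb
  rw [← hM]
  have hmH : ∀ i, i ∈ H ↔ ¬ mm E grp cl u i ≤ R := by
    intro i
    rw [hH, Finset.mem_filter]
    exact ⟨fun h => h.2, fun h => ⟨Finset.mem_univ _, h⟩⟩
  -- the five cases
  have hsub : ((O0 E grp).filter fun o => cl o.2 = u ∧ ¬ (Pv E grp cl R o o.1.1 ∨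
      Pv E grp cl R o o.1.2)) ⊆
      ((O0 E grp).filter fun o => cl o.2 = u ∧ o.1.1 ∈ H ∧ o.1.2 ∈ H) ∪
      ((((O0 E grp).filter fun o => cl o.2 = u ∧ o.1.1 = o.2.1 ∧ o.1.2 ∈ H) ∪
      ((O0 E grp).filter fun o => cl o.2 = u ∧ o.1.1 = o.2.2 ∧ o.1.2 ∈ H)) ∪
      (((O0 E grp).filter fun o => cl o.2 = u ∧ o.1.2 = o.2.1 ∧ o.1.1 ∈ H) ∪
      ((O0 E grp).filter fun o => cl o.2 = u ∧ o.1.2 = o.2.2 ∧ o.1.1 ∈ H))) := by
    intro o ho
    rw [Finset.mem_filter] at ho
    obtain ⟨ho, hu, hP⟩ := ho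
    have ho' := mem_O0.mp ho
    simp only [Finset.mem_union, Finset.mem_filter]
    rw [not_or] at hP
    unfold Pv at hP
    rw [hu] at hP
    have e1 : ∀ i, mm E grp cl u i ≤ R ↔ i ∉ H := fun i => by rw [hmH, not_not]
    rw [e1, e1] at hP
    have hlt := hE _ ho'.1
    have hlt' := hE _ ho'.2.1
    have hne := ho'.2.2.2
    by_cases h1 : o.1.1 ∈ H
    · by_cases h2 : o.1.2 ∈ H
      · exact Or.inl ⟨ho, hu, h1, h2⟩
      · have h3 : o.1.2 = o.2.1 ∨ o.1.2 = o.2.2 := by
          by_contra hc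
          rw [not_or] at hc
          exact hP.2 ⟨hc.1, hc.2, h2⟩
        rcases h3 with h3 | h3
        · exact Or.inr (Or.inr (Or.inl ⟨ho, hu, h3, h1⟩))
        · exact Or.inr (Or.inr (Or.inr ⟨ho, hu, h3, h1⟩))
    · have h3 : o.1.1 = o.2.1 ∨ o.1.1 = o.2.2 := by
        by_contra hc
        rw [not_or] at hc
        exact hP.1 ⟨hc.1, hc.2, h1⟩
      have h2 : o.1.2 ∈ H := by
        by_contra h2
        have h4 : o.1.2 = o.2.1 ∨ o.1.2 = o.2.2 := by
          by_contra hc
          rw [not_or] at hc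
          exact hP.2 ⟨hc.1, hc.2, h2⟩
        rcases h3 with h3 | h3 <;> rcases h4 with h4 | h4
        · rw [h3, h4] at hlt
          exact lt_irrefl _ hlt
        · exact hne (Prod.ext h3 h4)
        · rw [h3, h4] at hlt
          exact lt_asymm hlt hlt'
        · rw [h3, h4] at hlt
          exact lt_irrefl _ hlt
      rcases h3 with h3 | h3
      · exact Or.inr (Or.inl (Or.inl ⟨ho, hu, h3, h2⟩))
      · exact Or.inr (Or.inl (Or.inr ⟨ho, hu, h3, h2⟩))
  -- pairs with the same first edge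
  have huniq : ∀ o ∈ O0 E grp, ∀ o' ∈ O0 E grp, cl o.2 = u → cl o'.2 = u → o.1 = o'.1 → o = o' := by
    intro o ho o' ho' hu hu' he
    have h1 := mem_O0.mp ho
    have h2 := mem_O0.mp ho'
    refine Prod.ext he ?_
    by_contra hne
    refine hcl o.2 h1.2.1 o'.2 h2.2.1 hne ?_ (hu.trans hu'.symm)
    rw [← h1.2.2.1, ← h2.2.2.1, he]
  have c0 : ((O0 E grp).filter fun o => cl o.2 = u ∧ o.1.1 ∈ H ∧ o.1.2 ∈ H).card ≤
      H.card * H.card := by
    rw [← Finset.card_product]
    refine Finset.card_le_card_of_injOn (fun o => o.1) ?_ ?_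
    · intro o ho
      rw [Finset.mem_coe, Finset.mem_filter] at ho
      exact Finset.mem_coe.mpr (Finset.mem_product.mpr ho.2.2)
    · intro o ho o' ho' he
      rw [Finset.mem_coe, Finset.mem_filter] at ho ho'
      exact huniq o ho.1 o' ho'.1 ho.2.1 ho'.2.1 he
  have hMm : ∀ o ∈ O0 E grp, cl o.2 = u → o.2 ∈ M := by
    intro o ho hu
    rw [hM, Finset.mem_filter]
    exact ⟨(mem_O0.mp ho).2.1, hu⟩
  have c1 : ((O0 E grp).filter fun o => cl o.2 = u ∧ o.1.1 = o.2.1 ∧ o.1.2 ∈ H).card ≤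
      M.card * H.card := by
    rw [← Finset.card_product]
    refine Finset.card_le_card_of_injOn (fun o => (o.2, o.1.2)) ?_ ?_
    · intro o ho
      rw [Finset.mem_coe, Finset.mem_filter] at ho
      exact Finset.mem_coe.mpr (Finset.mem_product.mpr ⟨hMm o ho.1 ho.2.1, ho.2.2.2⟩)
    · intro o ho o' ho' he
      rw [Finset.mem_coe, Finset.mem_filter] at ho ho'
      rw [Prod.mk.injEq] at he
      refine Prod.ext (Prod.ext ?_ he.2) he.1
      rw [ho.2.2.1, ho'.2.2.1, he.1]
  have c2 : ((O0 E grp).filter fun o => cl o.2 = u ∧ o.1.1 = o.2.2 ∧ o.1.2 ∈ H).card ≤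
      M.card * H.card := by
    rw [← Finset.card_product]
    refine Finset.card_le_card_of_injOn (fun o => (o.2, o.1.2)) ?_ ?_
    · intro o ho
      rw [Finset.mem_coe, Finset.mem_filter] at ho
      exact Finset.mem_coe.mpr (Finset.mem_product.mpr ⟨hMm o ho.1 ho.2.1, ho.2.2.2⟩)
    · intro o ho o' ho' he
      rw [Finset.mem_coe, Finset.mem_filter] at ho ho'
      rw [Prod.mk.injEq] at he
      refine Prod.ext (Prod.ext ?_ he.2) he.1
      rw [ho.2.2.1, ho'.2.2.1, he.1]
  have c3 : ((O0 E grp).filter fun o => cl o.2 = u ∧ o.1.2 = o.2.1 ∧ o.1.1 ∈ H).card ≤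
      M.card * H.card := by
    rw [← Finset.card_product]
    refine Finset.card_le_card_of_injOn (fun o => (o.2, o.1.1)) ?_ ?_
    · intro o ho
      rw [Finset.mem_coe, Finset.mem_filter] at ho
      exact Finset.mem_coe.mpr (Finset.mem_product.mpr ⟨hMm o ho.1 ho.2.1, ho.2.2.2⟩)
    · intro o ho o' ho' he
      rw [Finset.mem_coe, Finset.mem_filter] at ho ho'
      rw [Prod.mk.injEq] at he
      refine Prod.ext (Prod.ext he.2 ?_) he.1
      rw [ho.2.2.1, ho'.2.2.1, he.1]
  have c4 : ((O0 E grp).filter fun o => cl o.2 = u ∧ o.1.2 = o.2.2 ∧ o.1.1 ∈ H).card ≤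
      M.card * H.card := by
    rw [← Finset.card_product]
    refine Finset.card_le_card_of_injOn (fun o => (o.2, o.1.1)) ?_ ?_
    · intro o ho
      rw [Finset.mem_coe, Finset.mem_filter] at ho
      exact Finset.mem_coe.mpr (Finset.mem_product.mpr ⟨hMm o ho.1 ho.2.1, ho.2.2.2⟩)
    · intro o ho o' ho' he
      rw [Finset.mem_coe, Finset.mem_filter] at ho ho'
      rw [Prod.mk.injEq] at he
      refine Prod.ext (Prod.ext he.2 ?_) he.1
      rw [ho.2.2.1, ho'.2.2.1, he.1]
  have hbad : ((O0 E grp).filter fun o => cl o.2 = u ∧ ¬ (Pv E grp cl R o o.1.1 ∨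
      Pv E grp cl R o o.1.2)).card ≤ H.card * H.card + 4 * (M.card * H.card) := by
    refine (Finset.card_le_card hsub).trans ((Finset.card_union_le _ _).trans ?_)
    refine (Nat.add_le_add c0 ((Finset.card_union_le _ _).trans (Nat.add_le_add
      ((Finset.card_union_le _ _).trans (Nat.add_le_add c1 c2))
      ((Finset.card_union_le _ _).trans (Nat.add_le_add c3 c4))))).trans ?_
    omega
  generalize ((O0 E grp).filter fun o => cl o.2 = u ∧ ¬ (Pv E grp cl R o o.1.1 ∨
      Pv E grp cl R o o.1.2)).card = B at hbad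
  generalize H.card = h at hheavy hbad
  generalize M.card = m at hheavy hbad hMb
  have h1 : h ≤ 2 * m := by
    refine Nat.le_of_mul_le_mul_right (c := R) ?_ hR0
    calc h * R ≤ 2 * (m * (κ - 1)) := hheavy
      _ ≤ 2 * (m * R) := Nat.mul_le_mul_left _ (Nat.mul_le_mul_left _ (by omega))
      _ = _ := by ring
  have h2 : B ≤ 6 * (m * h) := by
    calc B ≤ h * h + 4 * (m * h) := hbad
      _ ≤ 2 * m * h + 4 * (m * h) := Nat.add_le_add_right (Nat.mul_le_mul_right _ h1) _
      _ = _ := by ring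
  refine Nat.le_of_mul_le_mul_right (c := R) ?_ hR0
  calc 4 * B * R ≤ 4 * (6 * (m * h)) * R := Nat.mul_le_mul_right _ (Nat.mul_le_mul_left _ h2)
    _ = 24 * m * (h * R) := by ring
    _ ≤ 24 * m * (2 * (m * (κ - 1))) := Nat.mul_le_mul_left _ hheavy
    _ = m * (κ - 1) * (48 * m) := by ring
    _ ≤ m * (κ - 1) * (48 * b) := Nat.mul_le_mul_left _ (Nat.mul_le_mul_left _ hMb)
    _ ≤ m * (κ - 1) * R := Nat.mul_le_mul_left _ hR2

/-- most pairs are good -/
theorem card_good [Fintype U] (hE : ∀ z ∈ E, z.1 < z.2)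
    (hgrp : ∀ z ∈ E, (E.filter fun y => grp y = grp z).card = κ)
    (hcl : ∀ z ∈ E, ∀ y ∈ E, z ≠ y → grp z = grp y → cl z ≠ cl y)
    (hb : ∀ u, (E.filter fun z => cl z = u).card ≤ b)
    (hR0 : 0 < R) (hR1 : κ ≤ R) (hR2 : 48 * b ≤ R) :
    3 * (E.card * (κ - 1)) ≤ 4 * ((O0 E grp).filter fun o => Pv E grp cl R o o.1.1 ∨
      Pv E grp cl R o o.1.2).card := by
  have h1 : 4 * ((O0 E grp).filter fun o => ¬ (Pv E grp cl R o o.1.1 ∨
      Pv E grp cl R o o.1.2)).card ≤ E.card * (κ - 1) := by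
    have e1 : ((O0 E grp).filter fun o => ¬ (Pv E grp cl R o o.1.1 ∨
        Pv E grp cl R o o.1.2)).card = ∑ u, ((O0 E grp).filter fun o => cl o.2 = u ∧
          ¬ (Pv E grp cl R o o.1.1 ∨ Pv E grp cl R o o.1.2)).card := by
      rw [Finset.card_eq_sum_card_fiberwise (s := (O0 E grp).filter fun o =>
        ¬ (Pv E grp cl R o o.1.1 ∨ Pv E grp cl R o o.1.2)) (t := (univ : Finset U))
        (f := fun o => cl o.2) fun o _ => Finset.mem_coe.mpr (Finset.mem_univ _)]
      refine Finset.sum_congr rfl fun u _ => ?_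
      rw [Finset.filter_filter]
      congr 1
      refine Finset.filter_congr fun o _ => ?_
      exact and_comm
    have e2 : E.card = ∑ u, (E.filter fun z => cl z = u).card :=
      Finset.card_eq_sum_card_fiberwise fun z _ => Finset.mem_coe.mpr (Finset.mem_univ _)
    rw [e1, Finset.mul_sum, e2, Finset.sum_mul]
    exact Finset.sum_le_sum fun u _ => bad_class hE hgrp hcl hb hR0 hR1 hR2 u
  have h2 := Finset.card_filter_add_card_filter_not (s := O0 E grp)
    (fun o => Pv E grp cl R o o.1.1 ∨ Pv E grp cl R o o.1.2)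
  rw [card_O0 hgrp] at h2
  omega

theorem qq_spec (hE : ∀ z ∈ E, z.1 < z.2) {o : (Fin n × Fin n) × (Fin n × Fin n)}
    (ho : o ∈ O0 E grp) (hP : Pv E grp cl R o o.1.1 ∨ Pv E grp cl R o o.1.2) :
    Pv E grp cl R o (qq E grp cl R o).1 ∧ (qq E grp cl R o).1 ≠ (qq E grp cl R o).2 ∧
      (qq E grp cl R o = o.1 ∨ qq E grp cl R o = (o.1.2, o.1.1)) := by
  have hlt := hE _ (mem_O0.mp ho).1
  unfold qq
  split_ifs with h
  · exact ⟨h, hlt.ne, Or.inl rfl⟩
  · exact ⟨hP.resolve_left h, hlt.ne', Or.inr rfl⟩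

/-- few edges at an index -/
theorem card_at (hE : ∀ z ∈ E, z.1 < z.2) (i : Fin n) :
    (E.filter fun z => z.1 = i ∨ z.2 = i).card ≤ n := by
  have h : (E.filter fun z => z.1 = i ∨ z.2 = i).card ≤ (univ : Finset (Fin n)).card := by
    refine Finset.card_le_card_of_injOn (fun z => if z.1 = i then z.2 else z.1)
      (fun z _ => Finset.mem_coe.mpr (Finset.mem_univ _)) ?_
    intro z hz y hy he
    rw [Finset.mem_coe, Finset.mem_filter] at hz hy
    have h1 := hE z hz.1
    have h2 := hE y hy.1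
    simp only at he
    by_cases e1 : z.1 = i <;> by_cases e2 : y.1 = i
    · rw [if_pos e1, if_pos e2] at he
      exact Prod.ext (e1.trans e2.symm) he
    · rw [if_pos e1, if_neg e2] at he
      have e3 := hy.2.resolve_left e2
      rw [← e1] at e3
      rw [e3, ← he] at h2
      exact absurd h1 (lt_asymm h2)
    · rw [if_neg e1, if_pos e2] at he
      have e3 := hz.2.resolve_left e1
      rw [← e2] at e3
      rw [e3, he] at h1
      exact absurd h1 (lt_asymm h2)
    · rw [if_neg e1, if_neg e2] at he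
      exact Prod.ext he ((hz.2.resolve_left e1).trans (hy.2.resolve_left e2).symm)
  rwa [Finset.card_univ, Fintype.card_fin] at h

end

theorem core_comb {n : ℕ} {K : Type} [Field K] {U : Type*} [Fintype U] {k : Fin n → K}
    (hk : Gen2 k) {E : Finset (Fin n × Fin n)} (hE : ∀ z ∈ E, z.1 < z.2)
    {cl : Fin n × Fin n → U} {grp : Fin n × Fin n → ℕ} {g : U → K × K} {κ b R : ℕ}
    (hg : ∀ z ∈ E, (g (cl z)).1 ≠ 0)
    (hgrp : ∀ z ∈ E, (E.filter fun y => grp y = grp z).card = κ)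
    (heq : ∀ z ∈ E, ∀ y ∈ E, grp z = grp y → ev (g (cl z)) (ps k z) = ev (g (cl y)) (ps k y))
    (hcl : ∀ z ∈ E, ∀ y ∈ E, z ≠ y → grp z = grp y → cl z ≠ cl y)
    (hmat : ∀ z ∈ E, ∀ y ∈ E, z ≠ y → cl z = cl y →
      z.1 ≠ y.1 ∧ z.1 ≠ y.2 ∧ z.2 ≠ y.1 ∧ z.2 ≠ y.2)
    (hb : ∀ u, (E.filter fun z => cl z = u).card ≤ b)
    (hR0 : 0 < R) (hR1 : κ ≤ R) (hR2 : 48 * b ≤ R) (hR3 : n * κ ≤ R ^ 2) :
    3 * (E.card * (κ - 1)) ≤ 512 * (Fintype.card U * R) := by
  by_contra hcon
  rw [not_le] at hcon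
  obtain ⟨O, hO⟩ : ∃ O, O = (O0 E grp).filter fun o => Pv E grp cl R o o.1.1 ∨
      Pv E grp cl R o o.1.2 := ⟨_, rfl⟩
  have hgood := card_good (cl := cl) hE hgrp hcl hb hR0 hR1 hR2
  rw [← hO] at hgood
  have hmO : ∀ o ∈ O, o ∈ O0 E grp ∧ Pv E grp cl R o (qq E grp cl R o).1 ∧
      (qq E grp cl R o).1 ≠ (qq E grp cl R o).2 ∧
      (qq E grp cl R o = o.1 ∨ qq E grp cl R o = (o.1.2, o.1.1)) := by
    intro o ho
    rw [hO, Finset.mem_filter] at ho
    exact ⟨ho.1, qq_spec hE ho.1 ho.2⟩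
  have hin : ∀ o ∈ O, o.1.1 = (qq E grp cl R o).1 ∨ o.1.2 = (qq E grp cl R o).1 := by
    intro o ho
    rcases (hmO o ho).2.2.2 with h | h
    · rw [h]
      exact Or.inl rfl
    · rw [h]
      exact Or.inr rfl
  -- two edges of one class with a common end
  have hsame : ∀ o ∈ O, ∀ o' ∈ O, (qq E grp cl R o).1 = (qq E grp cl R o').1 →
      cl o.1 = cl o'.1 → o.1 = o'.1 := by
    intro o ho o' ho' hv hc
    by_contra hne
    have h1 := mem_O0.mp (hmO o ho).1
    have h2 := mem_O0.mp (hmO o' ho').1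
    obtain ⟨m1, m2, m3, m4⟩ := hmat o.1 h1.1 o'.1 h2.1 hne hc
    rcases hin o ho with h3 | h3 <;> rcases hin o' ho' with h4 | h4
    · exact m1 (h3.trans (hv.trans h4.symm))
    · exact m2 (h3.trans (hv.trans h4.symm))
    · exact m3 (h3.trans (hv.trans h4.symm))
    · exact m4 (h3.trans (hv.trans h4.symm))
  have s1 : ∀ o ∈ O, ∀ o' ∈ O, (qq E grp cl R o).1 = (qq E grp cl R o').1 →
      cl o.1 = cl o'.1 → cl o.2 = cl o'.2 → o = o' := by
    intro o ho o' ho' hv ha hb'
    have h1 := hsame o ho o' ho' hv ha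
    have h2 := mem_O0.mp (hmO o ho).1
    have h3 := mem_O0.mp (hmO o' ho').1
    refine Prod.ext h1 ?_
    by_contra hne
    refine hcl o.2 h2.2.1 o'.2 h3.2.1 hne ?_ hb'
    rw [← h2.2.2.1, ← h3.2.2.1, h1]
  have s2 : ∀ o ∈ O, (O.filter fun o' => (qq E grp cl R o').1 = (qq E grp cl R o).1 ∧ o' ≠ o ∧
      cl o'.1 = cl o.1).card ≤ κ := by
    intro o ho
    have h2 := mem_O0.mp (hmO o ho).1
    rw [← hgrp o.1 h2.1]
    refine Finset.card_le_card_of_injOn (fun o' => o'.2) ?_ ?_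
    · intro o' ho'
      rw [Finset.mem_coe, Finset.mem_filter] at ho'
      obtain ⟨ho', hv, -, ha⟩ := ho'
      have h1 := hsame o' ho' o ho hv ha
      have h3 := mem_O0.mp (hmO o' ho').1
      rw [Finset.mem_coe, Finset.mem_filter]
      exact ⟨h3.2.1, by rw [← h3.2.2.1, h1]⟩
    · intro o' ho' o'' ho'' he
      rw [Finset.mem_coe, Finset.mem_filter] at ho' ho''
      refine Prod.ext ?_ he
      rw [hsame o' ho'.1 o ho ho'.2.1 ho'.2.2.2, hsame o'' ho''.1 o ho ho''.2.1 ho''.2.2.2]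
  have s3 : ∀ o ∈ O, (O.filter fun o' => (qq E grp cl R o').1 = (qq E grp cl R o).1 ∧
      cl o'.2 = cl o.2).card ≤ R := by
    intro o ho
    refine le_trans (Finset.card_le_card ?_) (hmO o ho).2.1.2.2
    intro o' ho'
    rw [Finset.mem_filter] at ho'
    rw [Finset.mem_filter]
    refine ⟨(hmO o' ho'.1).1, ho'.2.2, ?_⟩
    rw [← ho'.2.1]
    exact hin o' ho'.1
  have s4 : ∀ o ∈ O, (O.filter fun o' => (qq E grp cl R o').1 = (qq E grp cl R o).1).card ≤
      n * κ := by
    intro o ho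
    have hsub : (O.filter fun o' => (qq E grp cl R o').1 = (qq E grp cl R o).1) ⊆
        (E.filter fun z => z.1 = (qq E grp cl R o).1 ∨ z.2 = (qq E grp cl R o).1).biUnion
          fun z => (E.filter fun y => grp y = grp z).image fun y => (z, y) := by
      intro o' ho'
      rw [Finset.mem_filter] at ho'
      have h3 := mem_O0.mp (hmO o' ho'.1).1
      rw [Finset.mem_biUnion]
      refine ⟨o'.1, Finset.mem_filter.mpr ⟨h3.1, ?_⟩, Finset.mem_image.mpr ⟨o'.2,
        Finset.mem_filter.mpr ⟨h3.2.1, h3.2.2.1.symm⟩, rfl⟩⟩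
      rw [← ho'.2]
      exact hin o' ho'.1
    refine (Finset.card_le_card hsub).trans (Finset.card_biUnion_le.trans ?_)
    calc ∑ z ∈ E.filter (fun z => z.1 = (qq E grp cl R o).1 ∨ z.2 = (qq E grp cl R o).1),
          ((E.filter fun y => grp y = grp z).image fun y => (z, y)).card
        ≤ ∑ _z ∈ E.filter (fun z => z.1 = (qq E grp cl R o).1 ∨ z.2 = (qq E grp cl R o).1), κ := by
          refine Finset.sum_le_sum fun z hz => ?_
          exact Finset.card_image_le.trans (le_of_eq (hgrp z (Finset.mem_filter.mp hz).1))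
      _ = (E.filter fun z => z.1 = (qq E grp cl R o).1 ∨ z.2 = (qq E grp cl R o).1).card * κ := by
          rw [Finset.sum_const, smul_eq_mul]
      _ ≤ n * κ := Nat.mul_le_mul_right _ (card_at hE _)
  have s5 : O.card * (n * κ + (κ + R) * R) + 384 * Fintype.card U * R ^ 3 <
      6 * O.card * R ^ 2 := by
    have h1 : 128 * (Fintype.card U * R) < O.card := by omega
    have h2 : n * κ + (κ + R) * R ≤ 3 * R ^ 2 := by
      have : κ * R ≤ R * R := Nat.mul_le_mul_right _ hR1
      nlinarith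
    have h3 : 0 < R ^ 2 := by positivity
    calc O.card * (n * κ + (κ + R) * R) + 384 * Fintype.card U * R ^ 3
        ≤ O.card * (3 * R ^ 2) + 384 * Fintype.card U * R ^ 3 :=
          Nat.add_le_add_right (Nat.mul_le_mul_left _ h2) _
      _ = 3 * (O.card * R ^ 2) + 3 * (128 * (Fintype.card U * R) * R ^ 2) := by ring
      _ < 3 * (O.card * R ^ 2) + 3 * (O.card * R ^ 2) := by
          have := Nat.mul_lt_mul_of_pos_right h1 h3
          omega
      _ = _ := by ring
  obtain ⟨W₁, W₂, hW⟩ := samp O (fun o => cl o.1) (fun o => cl o.2)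
    (fun o => (qq E grp cl R o).1) R κ R (n * κ) hR0 s1
    (fun o ho => by convert s2 o ho) (fun o ho => by convert s3 o ho)
    (fun o ho => by convert s4 o ho) s5
  -- the contradiction
  have h1 := few_fresh hk (O.filter fun o => cl o.1 ∈ W₁ ∧ cl o.2 ∈ W₂)
    (fun o => qq E grp cl R o) (fun o => o.2) (fun o => cl o.1) (fun o => cl o.2) g (W₁ ∪ W₂)
    (fun o ho => Finset.mem_union_left _ (Finset.mem_filter.mp ho).2.1)
    (fun o ho => Finset.mem_union_right _ (Finset.mem_filter.mp ho).2.2)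
    (fun o ho => hg _ (mem_O0.mp (hmO o (Finset.mem_filter.mp ho).1).1).1)
    (fun o ho => by
      obtain ⟨-, h2, h3, -⟩ := hmO o (Finset.mem_filter.mp ho).1
      exact ⟨h3, h2.1, h2.2.1⟩)
    (fun o ho => by
      obtain ⟨h2, -, -, h3⟩ := hmO o (Finset.mem_filter.mp ho).1
      have h4 := mem_O0.mp h2
      have h5 : ps k (qq E grp cl R o) = ps k o.1 := by
        rcases h3 with h3 | h3
        · rw [h3]
        · rw [h3]
          unfold ps
          exact add_comm _ _
      rw [h5]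
      exact heq _ h4.1 _ h4.2.1 h4.2.2.1)
  have h2 := Finset.card_union_le W₁ W₂
  have h3 : ((O.filter fun o => cl o.1 ∈ W₁ ∧ cl o.2 ∈ W₂).image
      fun o => (qq E grp cl R o).1).card ≤ 16 * (W₁ ∪ W₂).card := h1
  omega

end GGM3
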