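import Pool.Agent.H.MP_0427c5_lc.wh.Col
import Pool.Agent.H.MP_0427c5_lc.wh.Comb

/-!
# 3SUM-Indexing with hash functions of wide range: the number of hits
-/

namespace GGM3

open Finset
open scoped Classical

variable {n : ℕ} {K : Type} [Field K] {U : Type} [Fintype U]

/-- the pairs of two different elements whose sums are hit -/
noncomputable def eset (cl : Fin n × Fin n → U) (k : Fin n → K) (X : Finset K) (g : U → K × K) :
    Finset (Fin n × Fin n) :=
  univ.filter fun q => q.1 < q.2 ∧ (g (cl q)).1 ≠ 0 ∧ ev (g (cl q)) (ps k q) ∈ X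

theorem mem_eset {cl : Fin n × Fin n → U} {k : Fin n → K} {X : Finset K} {g : U → K × K}
    {q : Fin n × Fin n} : q ∈ eset cl k X g ↔
      q.1 < q.2 ∧ (g (cl q)).1 ≠ 0 ∧ ev (g (cl q)) (ps k q) ∈ X := by
  unfold eset
  rw [Finset.mem_filter]
  exact ⟨fun h => h.2, fun h => ⟨Finset.mem_univ _, h⟩⟩

theorem pdj_symm {a b : Fin n × Fin n} (h : ¬ Pdj a b) : ¬ Pdj b a := by
  intro h'
  exact h ⟨h'.1.symm, h'.2.2.1.symm, h'.2.1.symm, h'.2.2.2.symm⟩

/-- few pairs of one class meet a given pair -/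
theorem card_meet {cl : Fin n × Fin n → U} (hcl : ∀ i j, cl (i, j) = cl (j, i)) {r : U → ℕ}
    (hr : ∀ i w, (univ.filter fun j => cl (i, j) = w).card ≤ r w) {F : Finset (Fin n × Fin n)}
    {u : U} (hF : ∀ y ∈ F, y.1 < y.2 ∧ cl y = u) (x : Fin n × Fin n) :
    (F.filter fun y => ¬ Pdj x y).card ≤ 2 * r u := by
  have hsub : (F.filter fun y => ¬ Pdj x y) ⊆
      ((univ.filter fun j => cl (x.1, j) = u).image fun j => if x.1 < j then (x.1, j) else (j, x.1)) ∪
      ((univ.filter fun j => cl (x.2, j) = u).image fun j => if x.2 < j then (x.2, j) else (j, x.2)) := by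
    have key : ∀ (i : Fin n) (y : Fin n × Fin n), y.1 < y.2 → cl y = u → (i = y.1 ∨ i = y.2) →
        y ∈ (univ.filter fun j => cl (i, j) = u).image fun j => if i < j then (i, j) else (j, i) := by
      intro i y hy hu hi
      rw [Finset.mem_image]
      rcases hi with rfl | rfl
      · refine ⟨y.2, Finset.mem_filter.mpr ⟨Finset.mem_univ _, hu⟩, ?_⟩
        rw [if_pos hy]
      · refine ⟨y.1, Finset.mem_filter.mpr ⟨Finset.mem_univ _, by rw [hcl]; exact hu⟩, ?_⟩
        rw [if_neg (lt_asymm hy)]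
    intro y hy
    rw [Finset.mem_filter] at hy
    obtain ⟨h1, h2⟩ := hF y hy.1
    have h3 := hy.2
    unfold Pdj at h3
    rw [Finset.mem_union]
    by_cases e1 : x.1 = y.1
    · exact Or.inl (key _ y h1 h2 (Or.inl e1))
    by_cases e2 : x.1 = y.2
    · exact Or.inl (key _ y h1 h2 (Or.inr e2))
    by_cases e3 : x.2 = y.1
    · exact Or.inr (key _ y h1 h2 (Or.inl e3))
    by_cases e4 : x.2 = y.2
    · exact Or.inr (key _ y h1 h2 (Or.inr e4))
    exact absurd ⟨e1, e2, e3, e4⟩ h3
  have h1 := (Finset.card_le_card hsub).trans (Finset.card_union_le _ _)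
  have h2 : ((univ.filter fun j => cl (x.1, j) = u).image
      fun j => if x.1 < j then (x.1, j) else (j, x.1)).card ≤ r u :=
    Finset.card_image_le.trans (hr _ _)
  have h3 : ((univ.filter fun j => cl (x.2, j) = u).image
      fun j => if x.2 < j then (x.2, j) else (j, x.2)).card ≤ r u :=
    Finset.card_image_le.trans (hr _ _)
  omega

/-- the number of pairs which are hit -/
theorem card_eset (cl : Fin n × Fin n → U) (hcl : ∀ i j, cl (i, j) = cl (j, i)) {k : Fin n → K}
    (hk : Gen2 k) {r : U → ℕ} (hr : ∀ i w, (univ.filter fun j => cl (i, j) = w).card ≤ r w)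
    (X : Finset K) (g : U → K × K) {N v κ : ℕ} (hN : 2 * ∑ u, r u + Fintype.card U ≤ N)
    (hN0 : 0 < N) (hκ : 33000 ≤ κ) (hv : n * κ ≤ v ^ 2) :
    (eset cl k X g).card ≤ 700 * N + 2 * (X.card * κ) ∨
      3 * ((eset cl k X g).card * (κ - 1)) ≤ 2048 * (N * v) := by
  by_contra hcon
  rw [not_or, not_le, not_le] at hcon
  obtain ⟨E, hE⟩ : ∃ E, E = eset cl k X g := ⟨_, rfl⟩
  rw [← hE] at hcon
  have hmE : ∀ q ∈ E, q.1 < q.2 ∧ (g (cl q)).1 ≠ 0 ∧ ev (g (cl q)) (ps k q) ∈ X := by
    intro q hq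
    rw [hE] at hq
    exact mem_eset.mp hq
  obtain ⟨b, hb⟩ : ∃ b, b = E.card / N + 1 := ⟨_, rfl⟩
  have hb0 : 0 < b := by rw [hb]; exact Nat.succ_pos _
  -- the pieces
  obtain ⟨Q, hQ⟩ : ∃ Q : U → ℕ, ∀ u, Q u = 2 * r u + (E.filter fun z => cl z = u).card / b + 1 :=
    ⟨_, fun _ => rfl⟩
  have hcol : ∀ u, ∃ col : Fin n × Fin n → ℕ, (∀ x ∈ E.filter (fun z => cl z = u), col x < Q u) ∧
      (∀ x ∈ E.filter (fun z => cl z = u), ∀ y ∈ E.filter (fun z => cl z = u), x ≠ y → ¬ Pdj x y →
        col x ≠ col y) ∧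
      ∀ c, ((E.filter fun z => cl z = u).filter fun x => col x = c).card ≤ b := by
    intro u
    refine exists_col _ (fun x y => ¬ Pdj x y) (fun x y h => pdj_symm h) (2 * r u) b hb0 ?_ (Q u)
      (by rw [hQ]; omega)
    intro x _
    have h1 := card_meet hcl hr (F := E.filter fun z => cl z = u) (u := u) (fun y hy => by
      rw [Finset.mem_filter] at hy
      exact ⟨(hmE y hy.1).1, hy.2⟩) x
    convert h1
  choose col hcol1 hcol2 hcol3 using hcol
  have hQ0 : ∀ u, 0 < Q u := fun u => by rw [hQ]; exact Nat.succ_pos _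
  obtain ⟨cl', hcl'⟩ : ∃ cl' : Fin n × Fin n → (Σ u, Fin (Q u)), ∀ z, cl' z =
      ⟨cl z, ⟨col (cl z) z % Q (cl z), Nat.mod_lt _ (hQ0 _)⟩⟩ := ⟨_, fun _ => rfl⟩
  have hfst : ∀ z, (cl' z).1 = cl z := fun z => by rw [hcl']
  have hval : ∀ z ∈ E, ((cl' z).2 : ℕ) = col (cl z) z := by
    intro z hz
    have h1 := hcol1 (cl z) z (Finset.mem_filter.mpr ⟨hz, rfl⟩)
    rw [hcl']
    exact Nat.mod_eq_of_lt h1
  have hkey : ∀ z ∈ E, ∀ u : (Σ u, Fin (Q u)), cl' z = u → cl z = u.1 ∧ col u.1 z = u.2 := by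
    rintro z hz u rfl
    refine ⟨(hfst z).symm, ?_⟩
    rw [hval z hz, hfst]
  have hcard : Fintype.card (Σ u, Fin (Q u)) ≤ 2 * N := by
    rw [Fintype.card_sigma]
    simp only [Fintype.card_fin]
    have h1 : ∑ u, Q u = 2 * (∑ u, r u) + (∑ u, (E.filter fun z => cl z = u).card / b) +
        Fintype.card U := by
      rw [Finset.sum_congr rfl fun u _ => hQ u, Finset.sum_add_distrib, Finset.sum_add_distrib,
        Finset.mul_sum, Finset.sum_const, Finset.card_univ, smul_eq_mul, mul_one]
    have h2 : (∑ u, (E.filter fun z => cl z = u).card / b) * b ≤ E.card := by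
      rw [Finset.sum_mul]
      calc ∑ u, (E.filter fun z => cl z = u).card / b * b
          ≤ ∑ u, (E.filter fun z => cl z = u).card :=
            Finset.sum_le_sum fun u _ => Nat.div_mul_le_self _ _
        _ = E.card := (Finset.card_eq_sum_card_fiberwise
            fun z _ => Finset.mem_coe.mpr (Finset.mem_univ _)).symm
    have h3 : E.card < b * N := by
      rw [hb]
      have := Nat.div_add_mod E.card N
      have := Nat.mod_lt E.card hN0
      nlinarith
    have h4 : (∑ u, (E.filter fun z => cl z = u).card / b) < N := by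
      by_contra h5
      rw [not_lt] at h5
      have := Nat.mul_le_mul_right b h5
      rw [mul_comm N b] at this
      omega
    rw [h1]
    omega
  -- the groups
  obtain ⟨E', grp, hsub, hg1, hg2, hg3⟩ := exists_grp (fun q => ev (g (cl q)) (ps k q)) X κ
    (by omega) _ E rfl fun q hq => (hmE q hq).2.2
  obtain ⟨R, hR⟩ : ∃ R, R = max (48 * b) (max κ v) := ⟨_, rfl⟩
  have hRb : 48 * b ≤ R := by rw [hR]; exact le_max_left _ _
  have hRκ : κ ≤ R := by rw [hR]; exact (le_max_left _ _).trans (le_max_right _ _)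
  have hRv : v ≤ R := by rw [hR]; exact (le_max_right _ _).trans (le_max_right _ _)
  have hR3 : n * κ ≤ R ^ 2 := hv.trans (Nat.pow_le_pow_left hRv 2)
  have hmain := core_comb (U := Σ u, Fin (Q u)) (cl := cl') (grp := grp) (g := fun u => g u.1)
    (κ := κ) (b := b) (R := R) hk (E := E') (fun z hz => (hmE z (hsub hz)).1)
    (fun z hz => by
      simp only [hfst]
      exact (hmE z (hsub hz)).2.1)
    (fun z hz => by convert hg1 z hz)
    (fun z hz y hy he => by
      simp only [hfst]
      exact hg2 z hz y hy he)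
    (fun z hz y hy hzy he hc => by
      have h1 := hg2 z hz y hy he
      have h2 : cl z = cl y := by rw [← hfst, ← hfst, hc]
      simp only [h2, ev] at h1
      have h3 := mul_left_cancel₀ (hmE y (hsub hy)).2.1 (add_right_cancel h1)
      refine hk.sidon z y ⟨fun e => hzy (Prod.ext e.1 e.2), fun e => ?_⟩ h3
      have h4 := (hmE z (hsub hz)).1
      have h5 := (hmE y (hsub hy)).1
      rw [e.1, e.2] at h4
      exact lt_asymm h4 h5)
    (fun z hz y hy hzy hc => by
      by_contra hd
      have h1 := hkey z (hsub hz) _ hc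
      have h2 := hkey y (hsub hy) _ rfl
      exact hcol2 (cl' y).1 z (Finset.mem_filter.mpr ⟨hsub hz, h1.1⟩) y
        (Finset.mem_filter.mpr ⟨hsub hy, h2.1⟩) hzy hd (h1.2.trans h2.2.symm))
    (fun u => by
      refine le_trans (Finset.card_le_card ?_) (hcol3 u.1 u.2)
      intro z hz'
      have hz : z ∈ E' ∧ cl' z = u := by simpa using hz'
      have h1 := hkey z (hsub hz.1) _ hz.2
      exact Finset.mem_filter.mpr ⟨Finset.mem_filter.mpr ⟨hsub hz.1, h1.1⟩, h1.2⟩)
    (by omega) hRκ hRb hR3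
  -- the numbers
  obtain ⟨l, hl⟩ : ∃ l, κ = l + 1 := ⟨κ - 1, by omega⟩
  have hl2 : κ - 1 = l := by omega
  rw [hl2] at hmain hcon
  have hI : E.card ≤ 2 * E'.card := by omega
  have h1 : 3 * (E.card * l) ≤ 2048 * (N * R) := by
    have h0 : Fintype.card (Σ u, Fin (Q u)) * R ≤ 2 * N * R := Nat.mul_le_mul_right _ hcard
    have h2 : E.card * l ≤ 2 * E'.card * l := Nat.mul_le_mul_right _ hI
    calc 3 * (E.card * l) ≤ 3 * (2 * E'.card * l) := Nat.mul_le_mul_left _ h2
      _ = 2 * (3 * (E'.card * l)) := by ring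
      _ ≤ 2 * (512 * (Fintype.card (Σ u, Fin (Q u)) * R)) := Nat.mul_le_mul_left _ hmain
      _ ≤ 2 * (512 * (2 * N * R)) := Nat.mul_le_mul_left _ (Nat.mul_le_mul_left _ h0)
      _ = 2048 * (N * R) := by ring
  have hcon2 : 700 * N < E.card := by omega
  have hl3 : E.card * 32999 ≤ E.card * l := Nat.mul_le_mul_left _ (by omega)
  rcases le_total (max κ v) (48 * b) with h2 | h2
  · have h3 : R = 48 * b := by rw [hR]; exact max_eq_left h2
    have h4 : N * b ≤ E.card + N := by
      rw [hb, mul_add, mul_one]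
      have := Nat.mul_div_le E.card N
      omega
    have h5 : N * R = 48 * (N * b) := by rw [h3]; ring
    omega
  · rcases le_total v κ with h3 | h3
    · have h4 : R = l + 1 := by rw [hR, max_eq_right h2, max_eq_left h3, hl]
      rw [h4] at h1
      have h5 : 700 * N * l ≤ E.card * l := Nat.mul_le_mul_right _ hcon2.le
      have h6 : N * 32999 ≤ N * l := Nat.mul_le_mul_left _ (by omega)
      have h7 : N * (l + 1) = N * l + N := by ring
      have h8 : 700 * N * l = 700 * (N * l) := by ring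
      omega
    · have h4 : R = v := by rw [hR, max_eq_right h2, max_eq_right h3]
      rw [h4] at h1
      omega

/-- the hits -/
theorem cover_wide (cl : Fin n × Fin n → U) (hcl : ∀ i j, cl (i, j) = cl (j, i)) {k : Fin n → K}
    (hk : Gen2 k) {r : U → ℕ} (hr : ∀ i w, (univ.filter fun j => cl (i, j) = w).card ≤ r w)
    (X : Finset K) (g : U → K × K) {N v κ : ℕ} (hN : 2 * ∑ u, r u + Fintype.card U ≤ N)
    (hN0 : 0 < N) (hκ : 33000 ≤ κ) (hv : n * κ ≤ v ^ 2) :
    ∃ I : ℕ, ∑ u, (hits (g u) X (bk cl k u)).card ≤ n + I ∧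
      (I ≤ 700 * N + 2 * (X.card * κ) ∨ 3 * (I * (κ - 1)) ≤ 2048 * (N * v)) := by
  refine ⟨(eset cl k X g).card, ?_, card_eset cl hcl hk hr X g hN hN0 hκ hv⟩
  have h1 : ∀ u, (hits (g u) X (bk cl k u)).card ≤
      (((univ : Finset (Fin n)).filter fun i => cl (i, i) = u)).card +
        ((eset cl k X g).filter fun z => cl z = u).card := by
    intro u
    have hsub : hits (g u) X (bk cl k u) ⊆
        ((univ : Finset (Fin n)).filter fun i => cl (i, i) = u).image (fun i => ps k (i, i)) ∪
        ((eset cl k X g).filter fun z => cl z = u).image (ps k) := by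
      intro z hz
      unfold hits bk at hz
      rw [Finset.mem_filter, Finset.mem_image] at hz
      obtain ⟨⟨q, hq, rfl⟩, h2, h3⟩ := hz
      rw [Finset.mem_filter] at hq
      rw [Finset.mem_union, Finset.mem_image, Finset.mem_image]
      rcases lt_trichotomy q.1 q.2 with h | h | h
      · right
        refine ⟨q, Finset.mem_filter.mpr ⟨mem_eset.mpr ⟨h, ?_, ?_⟩, hq.2⟩, rfl⟩
        · rw [hq.2]
          exact h2
        · rw [hq.2]
          exact h3
      · left
        have e : ((q.1, q.1) : Fin n × Fin n) = q := Prod.ext rfl h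
        exact ⟨q.1, Finset.mem_filter.mpr ⟨Finset.mem_univ _, by rw [e]; exact hq.2⟩, by rw [e]⟩
      · right
        have e : cl (q.2, q.1) = u := by
          rw [hcl]
          exact hq.2
        have e' : ps k (q.2, q.1) = ps k q := add_comm _ _
        refine ⟨(q.2, q.1), Finset.mem_filter.mpr ⟨mem_eset.mpr ⟨h, ?_, ?_⟩, e⟩, e'⟩
        · rw [e]
          exact h2
        · rw [e, e']
          exact h3
    exact (Finset.card_le_card hsub).trans ((Finset.card_union_le _ _).trans
      (Nat.add_le_add Finset.card_image_le Finset.card_image_le))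
  calc ∑ u, (hits (g u) X (bk cl k u)).card
      ≤ ∑ u, ((((univ : Finset (Fin n)).filter fun i => cl (i, i) = u)).card +
          ((eset cl k X g).filter fun z => cl z = u).card) := Finset.sum_le_sum fun u _ => h1 u
    _ = n + (eset cl k X g).card := by
        rw [Finset.sum_add_distrib]
        congr 1
        · have h2 := Finset.card_eq_sum_card_fiberwise (s := (univ : Finset (Fin n)))
            (t := (univ : Finset U)) (f := fun i => cl (i, i))
            fun i _ => Finset.mem_coe.mpr (Finset.mem_univ _)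
          rw [Finset.card_univ, Fintype.card_fin] at h2
          exact h2.symm
        · exact (Finset.card_eq_sum_card_fiberwise
            fun z _ => Finset.mem_coe.mpr (Finset.mem_univ _)).symm

end GGM3
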