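import Pool.Agent.H.MP_0427c5_lc.hf.Cover

/-!
# 3SUM-Indexing with hash functions of wide range: triangular systems of equations
-/

namespace GGM3

open Finset
open scoped Classical

variable {n : ℕ} {R : Type} [Field R]

/-- the functions with values in `S` which satisfy the first `m` equations -/
noncomputable def sols (S : Finset R) (m : ℕ) (q q' : ℕ → Fin n × Fin n) (a a' : ℕ → R × R) :
    Finset (Fin n → R) :=
  (Fintype.piFinset fun _ : Fin n => S).filter fun k =>
    ∀ j < m, ev (a j) (ps k (q j)) = ev (a' j) (ps k (q' j))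

theorem ps_update (k : Fin n → R) {v : Fin n} (x : R) {q : Fin n × Fin n} (h1 : v ≠ q.1)
    (h2 : v ≠ q.2) : ps (Function.update k v x) q = ps k q := by
  unfold ps
  rw [Function.update_of_ne h1.symm, Function.update_of_ne h2.symm]

theorem card_sols_succ (S : Finset R) (m : ℕ) (q q' : ℕ → Fin n × Fin n) (a a' : ℕ → R × R)
    (ha : (a m).1 ≠ 0) (h2 : (q m).1 ≠ (q m).2) (h3 : (q m).1 ≠ (q' m).1)
    (h4 : (q m).1 ≠ (q' m).2)
    (h5 : ∀ l < m, (q m).1 ≠ (q l).1 ∧ (q m).1 ≠ (q l).2 ∧ (q m).1 ≠ (q' l).1 ∧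
      (q m).1 ≠ (q' l).2) :
    (sols S (m + 1) q q' a a').card * S.card ≤ (sols S m q q' a a').card := by
  rw [← Finset.card_product]
  refine Finset.card_le_card_of_injOn
    (fun p : (Fin n → R) × R => Function.update p.1 (q m).1 p.2) ?_ ?_
  · intro p hp
    rw [Finset.mem_coe, Finset.mem_product] at hp
    unfold sols at hp ⊢
    rw [Finset.mem_filter, Fintype.mem_piFinset] at hp
    rw [Finset.mem_coe, Finset.mem_filter, Fintype.mem_piFinset]
    obtain ⟨⟨hS, he⟩, hx⟩ := hp
    refine ⟨fun i => ?_, fun j hj => ?_⟩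
    · by_cases hi : i = (q m).1
      · rw [hi]
        simp only [Function.update_self]
        exact hx
      · simp only
        rw [Function.update_of_ne hi]
        exact hS i
    · obtain ⟨g1, g2, g3, g4⟩ := h5 j hj
      simp only
      rw [ps_update _ _ g1 g2, ps_update _ _ g3 g4]
      exact he j (by omega)
  · intro p hp p' hp' he
    rw [Finset.mem_coe, Finset.mem_product] at hp hp'
    unfold sols at hp hp'
    rw [Finset.mem_filter] at hp hp'
    obtain ⟨k, x⟩ := p
    obtain ⟨k', x'⟩ := p'
    simp only at he hp hp'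
    have hx : x = x' := by
      have := congrFun he (q m).1
      rwa [Function.update_self, Function.update_self] at this
    have hoff : ∀ i, i ≠ (q m).1 → k i = k' i := by
      intro i hi
      have := congrFun he i
      rwa [Function.update_of_ne hi, Function.update_of_ne hi] at this
    have e1 := hp.1.2 m (Nat.lt_succ_self m)
    have e2 := hp'.1.2 m (Nat.lt_succ_self m)
    have e3 : ps k (q' m) = ps k' (q' m) := by
      unfold ps
      rw [hoff _ h3.symm, hoff _ h4.symm]
    have e4 : k (q m).1 = k' (q m).1 := by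
      rw [e3, ← e2] at e1
      unfold ev ps at e1
      rw [hoff _ h2.symm] at e1
      have e5 := mul_left_cancel₀ ha (add_right_cancel e1)
      exact add_right_cancel e5
    rw [Prod.mk.injEq]
    refine ⟨funext fun i => ?_, hx⟩
    by_cases hi : i = (q m).1
    · rw [hi]
      exact e4
    · exact hoff i hi

/-- few solutions -/
theorem card_sols (S : Finset R) (m : ℕ) (q q' : ℕ → Fin n × Fin n) (a a' : ℕ → R × R)
    (ha : ∀ j < m, (a j).1 ≠ 0)
    (h2 : ∀ j < m, (q j).1 ≠ (q j).2 ∧ (q j).1 ≠ (q' j).1 ∧ (q j).1 ≠ (q' j).2)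
    (h5 : ∀ j < m, ∀ l < j, (q j).1 ≠ (q l).1 ∧ (q j).1 ≠ (q l).2 ∧ (q j).1 ≠ (q' l).1 ∧
      (q j).1 ≠ (q' l).2) :
    (sols S m q q' a a').card * S.card ^ m ≤ S.card ^ n := by
  induction m with
  | zero =>
    rw [pow_zero, mul_one]
    refine (Finset.card_filter_le _ _).trans (le_of_eq ?_)
    rw [Fintype.card_piFinset, Finset.prod_const, Finset.card_univ, Fintype.card_fin]
  | succ m ih =>
    have h := ih (fun j hj => ha j (by omega)) (fun j hj => h2 j (by omega))
      (fun j hj => h5 j (by omega))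
    obtain ⟨g1, g2, g3⟩ := h2 m (Nat.lt_succ_self m)
    have h' := card_sols_succ S m q q' a a' (ha m (Nat.lt_succ_self m)) g1 g2 g3
      (h5 m (Nat.lt_succ_self m))
    calc (sols S (m + 1) q q' a a').card * S.card ^ (m + 1)
        = ((sols S (m + 1) q q' a a').card * S.card) * S.card ^ m := by ring
      _ ≤ (sols S m q q' a a').card * S.card ^ m := Nat.mul_le_mul_right _ h'
      _ ≤ _ := h

end GGM3
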