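import Pool.Agent.H.MP_0427c5_lc.hf.Exist
import Pool.Agent.H.MP_0427c5_lc.wh.Lin

/-!
# 3SUM-Indexing with hash functions of wide range: sets in generic position exist
-/

namespace GGM3

open Finset
open scoped Classical

/-- `v = (q j).1` is a new index -/
def Fresh {n m : ℕ} (q q' : Fin m → Fin n × Fin n) : Prop :=
  (∀ j, (q j).1 ≠ (q j).2 ∧ (q j).1 ≠ (q' j).1 ∧ (q j).1 ≠ (q' j).2) ∧
  ∀ j l, l < j → (q j).1 ≠ (q l).1 ∧ (q j).1 ≠ (q l).2 ∧ (q j).1 ≠ (q' l).1 ∧ (q j).1 ≠ (q' l).2

/-- generic position: the sums are different, and there is no system of `4 s` equations, each with a new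
index, which is solved by `s` affine maps -/
structure Gen2 {n : ℕ} {K : Type} [Field K] (k : Fin n → K) : Prop where
  sidon : ∀ a b : Fin n × Fin n, Pne a b → ps k a ≠ ps k b
  indep : ∀ s : ℕ, 0 < s → ∀ (q q' : Fin (4 * s) → Fin n × Fin n) (c c' : Fin (4 * s) → Fin s)
    (g : Fin s → K × K), (∀ j, (g (c j)).1 ≠ 0) → Fresh q q' →
    ∃ j, ev (g (c j)) (ps k (q j)) ≠ ev (g (c' j)) (ps k (q' j))

variable {n : ℕ} {R : Type} [Field R]

theorem card_sols_fin (S : Finset R) (m : ℕ) (q q' : Fin m → Fin n × Fin n) (a a' : Fin m → R × R)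
    (ha : ∀ j, (a j).1 ≠ 0) (hf : Fresh q q') :
    ((Fintype.piFinset fun _ : Fin n => S).filter fun k =>
      ∀ j, ev (a j) (ps k (q j)) = ev (a' j) (ps k (q' j))).card * S.card ^ m ≤ S.card ^ n := by
  rcases m with _ | m
  · rw [pow_zero, mul_one]
    refine (Finset.card_filter_le _ _).trans (le_of_eq ?_)
    rw [Fintype.card_piFinset, Finset.prod_const, Finset.card_univ, Fintype.card_fin]
  · have hex : ∀ {β : Type} (f : Fin (m + 1) → β), ∃ F : ℕ → β, ∀ j : Fin (m + 1), F j = f j := by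
      intro β f
      refine ⟨fun j => if h : j < m + 1 then f ⟨j, h⟩ else f 0, fun j => ?_⟩
      simp only [j.2, dif_pos, Fin.eta]
    obtain ⟨Q, hQ⟩ := hex q
    obtain ⟨Q', hQ'⟩ := hex q'
    obtain ⟨A, hA⟩ := hex a
    obtain ⟨A', hA'⟩ := hex a'
    refine le_trans (Nat.mul_le_mul_right _ (Finset.card_le_card ?_))
      (card_sols S (m + 1) Q Q' A A' ?_ ?_ ?_)
    · intro k hk
      unfold sols
      rw [Finset.mem_filter] at hk ⊢
      refine ⟨hk.1, fun j hj => ?_⟩
      have h := hk.2 ⟨j, hj⟩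
      rw [← hQ, ← hQ', ← hA, ← hA'] at h
      exact h
    · intro j hj
      have h := ha ⟨j, hj⟩
      rwa [← hA] at h
    · intro j hj
      have h := hf.1 ⟨j, hj⟩
      rw [← hQ, ← hQ'] at h
      exact h
    · intro j hj l hl
      have h := hf.2 ⟨j, hj⟩ ⟨l, hl.trans hj⟩ hl
      rw [← hQ, ← hQ, ← hQ'] at h
      exact h

/-- the functions which solve some system with `s` maps -/
noncomputable def badS [Fintype R] (n : ℕ) (S : Finset R) (s : ℕ) : Finset (Fin n → R) :=
  ((univ : Finset ((Fin (4 * s) → ((Fin n × Fin n) × (Fin n × Fin n)) × (Fin s × Fin s)) ×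
    (Fin s → R × R))).filter fun c => Fresh (fun j => (c.1 j).1.1) (fun j => (c.1 j).1.2) ∧
      ∀ j, (c.2 (c.1 j).2.1).1 ≠ 0).biUnion fun c =>
    (Fintype.piFinset fun _ : Fin n => S).filter fun k =>
      ∀ j, ev (c.2 (c.1 j).2.1) (ps k (c.1 j).1.1) = ev (c.2 (c.1 j).2.2) (ps k (c.1 j).1.2)

theorem mem_badS [Fintype R] {S : Finset R} {s : ℕ} {f : Fin n → R} (hfS : ∀ i, f i ∈ S)
    {q q' : Fin (4 * s) → Fin n × Fin n} {c c' : Fin (4 * s) → Fin s} {g : Fin s → R × R}
    (hg : ∀ j, (g (c j)).1 ≠ 0) (hfr : Fresh q q')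
    (h : ∀ j, ev (g (c j)) (ps f (q j)) = ev (g (c' j)) (ps f (q' j))) : f ∈ badS n S s := by
  unfold badS
  rw [Finset.mem_biUnion]
  refine ⟨(fun j => ((q j, q' j), (c j, c' j)), g), ?_, ?_⟩
  · rw [Finset.mem_filter]
    exact ⟨Finset.mem_univ _, hfr, hg⟩
  · rw [Finset.mem_filter, Fintype.mem_piFinset]
    exact ⟨hfS, h⟩

theorem card_badS [Fintype R] (S : Finset R) (s : ℕ) (hs : s ≤ n) (h0 : 0 < S.card)
    (hS : Fintype.card R ≤ 2 * S.card) (hp : 16 * n ^ 12 ≤ Fintype.card R) :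
    16 ^ s * (badS n S s).card ≤ S.card ^ n := by
  obtain ⟨p, hpd⟩ : ∃ p : ℕ, p = Fintype.card R := ⟨_, rfl⟩
  rw [← hpd] at hS hp
  -- the number of systems
  have h1 : (badS n S s).card * S.card ^ (4 * s) ≤
      ((n * n * (n * n)) * (s * s)) ^ (4 * s) * (p * p) ^ s * S.card ^ n := by
    calc (badS n S s).card * S.card ^ (4 * s)
        ≤ (∑ c ∈ ((univ : Finset ((Fin (4 * s) → ((Fin n × Fin n) × (Fin n × Fin n)) ×
            (Fin s × Fin s)) × (Fin s → R × R))).filter fun c =>
              Fresh (fun j => (c.1 j).1.1) (fun j => (c.1 j).1.2) ∧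
              ∀ j, (c.2 (c.1 j).2.1).1 ≠ 0),
            ((Fintype.piFinset fun _ : Fin n => S).filter fun k =>
              ∀ j, ev (c.2 (c.1 j).2.1) (ps k (c.1 j).1.1) =
                ev (c.2 (c.1 j).2.2) (ps k (c.1 j).1.2)).card) * S.card ^ (4 * s) :=
          Nat.mul_le_mul_right _ Finset.card_biUnion_le
      _ = ∑ c ∈ ((univ : Finset ((Fin (4 * s) → ((Fin n × Fin n) × (Fin n × Fin n)) ×
            (Fin s × Fin s)) × (Fin s → R × R))).filter fun c =>
              Fresh (fun j => (c.1 j).1.1) (fun j => (c.1 j).1.2) ∧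
              ∀ j, (c.2 (c.1 j).2.1).1 ≠ 0),
            ((Fintype.piFinset fun _ : Fin n => S).filter fun k =>
              ∀ j, ev (c.2 (c.1 j).2.1) (ps k (c.1 j).1.1) =
                ev (c.2 (c.1 j).2.2) (ps k (c.1 j).1.2)).card * S.card ^ (4 * s) :=
          Finset.sum_mul _ _ _
      _ ≤ ∑ _c ∈ ((univ : Finset ((Fin (4 * s) → ((Fin n × Fin n) × (Fin n × Fin n)) ×
            (Fin s × Fin s)) × (Fin s → R × R))).filter fun c =>
              Fresh (fun j => (c.1 j).1.1) (fun j => (c.1 j).1.2) ∧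
              ∀ j, (c.2 (c.1 j).2.1).1 ≠ 0), S.card ^ n := by
          refine Finset.sum_le_sum fun c hc => ?_
          rw [Finset.mem_filter] at hc
          exact card_sols_fin S (4 * s) (fun j => (c.1 j).1.1) (fun j => (c.1 j).1.2)
            (fun j => c.2 (c.1 j).2.1) (fun j => c.2 (c.1 j).2.2) hc.2.2 hc.2.1
      _ ≤ ∑ _c : ((Fin (4 * s) → ((Fin n × Fin n) × (Fin n × Fin n)) ×
            (Fin s × Fin s)) × (Fin s → R × R)), S.card ^ n :=
          Finset.sum_le_sum_of_subset (Finset.filter_subset _ _)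
      _ = _ := by
          rw [Finset.sum_const, Finset.card_univ, smul_eq_mul]
          congr 1
          rw [hpd]
          simp only [Fintype.card_prod, Fintype.card_pi, Fintype.card_fin, Finset.prod_const,
            Finset.card_univ]
  have h2 : 16 * ((n * n * (n * n)) * (s * s)) ^ 4 * (p * p) ≤ S.card ^ 4 := by
    have e1 : ((n * n * (n * n)) * (s * s)) ^ 4 ≤ n ^ 24 := by
      calc ((n * n * (n * n)) * (s * s)) ^ 4 ≤ ((n * n * (n * n)) * (n * n)) ^ 4 :=
            Nat.pow_le_pow_left (Nat.mul_le_mul_left _ (Nat.mul_le_mul hs hs)) 4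
        _ = n ^ 24 := by ring
    have e2 : 256 * n ^ 24 ≤ p * p := by
      calc 256 * n ^ 24 = (16 * n ^ 12) * (16 * n ^ 12) := by ring
        _ ≤ p * p := Nat.mul_le_mul hp hp
    have e3 : (p * p) * (p * p) ≤ 16 * S.card ^ 4 := by
      calc (p * p) * (p * p) ≤ ((2 * S.card) * (2 * S.card)) * ((2 * S.card) * (2 * S.card)) :=
            Nat.mul_le_mul (Nat.mul_le_mul hS hS) (Nat.mul_le_mul hS hS)
        _ = 16 * S.card ^ 4 := by ring
    have e4 : 16 * (16 * ((n * n * (n * n)) * (s * s)) ^ 4 * (p * p)) ≤ 16 * S.card ^ 4 := by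
      calc 16 * (16 * ((n * n * (n * n)) * (s * s)) ^ 4 * (p * p))
          = (256 * ((n * n * (n * n)) * (s * s)) ^ 4) * (p * p) := by ring
        _ ≤ (256 * n ^ 24) * (p * p) := Nat.mul_le_mul_right _ (Nat.mul_le_mul_left _ e1)
        _ ≤ (p * p) * (p * p) := Nat.mul_le_mul_right _ e2
        _ ≤ _ := e3
    omega
  have h3 : 16 ^ s * (((n * n * (n * n)) * (s * s)) ^ (4 * s) * (p * p) ^ s) ≤
      S.card ^ (4 * s) := by
    calc 16 ^ s * (((n * n * (n * n)) * (s * s)) ^ (4 * s) * (p * p) ^ s)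
        = (16 * ((n * n * (n * n)) * (s * s)) ^ 4 * (p * p)) ^ s := by
          rw [pow_mul, mul_pow, mul_pow]
          ring
      _ ≤ (S.card ^ 4) ^ s := Nat.pow_le_pow_left h2 s
      _ = _ := (pow_mul _ _ _).symm
  refine Nat.le_of_mul_le_mul_right (c := S.card ^ (4 * s)) ?_ (pow_pos h0 _)
  calc 16 ^ s * (badS n S s).card * S.card ^ (4 * s)
      = 16 ^ s * ((badS n S s).card * S.card ^ (4 * s)) := by ring
    _ ≤ 16 ^ s * (((n * n * (n * n)) * (s * s)) ^ (4 * s) * (p * p) ^ s * S.card ^ n) :=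
        Nat.mul_le_mul_left _ h1
    _ = (16 ^ s * (((n * n * (n * n)) * (s * s)) ^ (4 * s) * (p * p) ^ s)) * S.card ^ n := by ring
    _ ≤ S.card ^ (4 * s) * S.card ^ n := Nat.mul_le_mul_right _ h3
    _ = _ := mul_comm _ _

theorem sum_small (N X : ℕ) (b : ℕ → ℕ) (hb : ∀ s < N, 16 ^ (s + 1) * b s ≤ X) :
    8 * ∑ s ∈ Finset.range N, b s ≤ X := by
  have h1 : ∀ s ∈ Finset.range N, (b s : ℝ) ≤ (X : ℝ) / 16 * (1 / 2) ^ s := by
    intro s hs
    have h2 := hb s (Finset.mem_range.mp hs)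
    have h3 : (16 : ℝ) ^ (s + 1) * b s ≤ X := by exact_mod_cast h2
    have h4 : (16 : ℝ) * (2 : ℝ) ^ s ≤ 16 ^ (s + 1) := by
      rw [pow_succ, mul_comm]
      exact mul_le_mul_of_nonneg_right (pow_le_pow_left₀ (by norm_num) (by norm_num) s)
        (by norm_num)
    have h5 : (16 : ℝ) * 2 ^ s * b s ≤ X :=
      (mul_le_mul_of_nonneg_right h4 (Nat.cast_nonneg _)).trans h3
    rw [one_div, inv_pow, ← div_eq_mul_inv, div_div, le_div_iff₀ (by positivity)]
    linarith
  have h2 : (∑ s ∈ Finset.range N, (b s : ℝ)) ≤ X / 8 := by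
    calc ∑ s ∈ Finset.range N, (b s : ℝ) ≤ ∑ s ∈ Finset.range N, (X : ℝ) / 16 * (1 / 2) ^ s :=
          Finset.sum_le_sum h1
      _ = (X : ℝ) / 16 * ∑ s ∈ Finset.range N, (1 / 2) ^ s := (Finset.mul_sum _ _ _).symm
      _ ≤ (X : ℝ) / 16 * 2 := by
          refine mul_le_mul_of_nonneg_left (sum_geometric_two_le N) ?_
          positivity
      _ = _ := by ring
  have h3 : ((8 * ∑ s ∈ Finset.range N, b s : ℕ) : ℝ) ≤ X := by
    push_cast
    linarith
  exact_mod_cast h3

theorem fresh_le {n m : ℕ} {q q' : Fin m → Fin n × Fin n} (h : Fresh q q') : m ≤ n := by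
  have hinj : Function.Injective fun j => (q j).1 := by
    intro j l hjl
    by_contra hne
    rcases lt_or_gt_of_ne hne with h1 | h1
    · exact (h.2 l j h1).1 hjl.symm
    · exact (h.2 j l h1).1 hjl
  have := Fintype.card_le_of_injective _ hinj
  simpa using this

section
variable {p : ℕ} [Fact p.Prime]

theorem exists_gen2 (n : ℕ) (hn : 1 ≤ n) (hp : 16 * n ^ 12 ≤ p) {τ : Type} [Fintype τ]
    (C : τ → Finset (ZMod p)) (l : ℕ) (hl : 4 * n * Fintype.card τ ≤ 2 ^ l) :
    ∃ k : Fin n → ℕ, (∀ i, 2 * k i < p) ∧ Gen2 (fun i => ((k i : ℕ) : ZMod p)) ∧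
      ∀ i t, (univ.filter fun j => ((k i : ℕ) : ZMod p) + ((k j : ℕ) : ZMod p) ∈ C t).card ≤
        l + 1 + 4 * n * (C t).card / p := by
  have hn12 : 1 ≤ n ^ 12 := Nat.one_le_pow _ _ hn
  have hp5 : 5 ≤ p := by omega
  set S : Finset (ZMod p) := (Finset.range ((p + 1) / 2)).image (fun j : ℕ => (j : ZMod p)) with hS
  have hScard : S.card = (p + 1) / 2 := by
    rw [hS, Finset.card_image_of_injOn, Finset.card_range]
    intro a ha b hb hab
    rw [Finset.coe_range, Set.mem_Iio] at ha hb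
    have h1 := congrArg ZMod.val hab
    simp only at h1
    rwa [ZMod.val_natCast_of_lt (by omega), ZMod.val_natCast_of_lt (by omega)] at h1
  set E : Finset (MvPolynomial (Fin n) (ZMod p)) :=
    (univ.image fun q : (Fin n × Fin n) × (Fin n × Fin n) => lp p q.1 - lp p q.2).filter
      fun P => P ≠ 0 with hE
  have hEcard : E.card ≤ n ^ 12 := by
    refine (Finset.card_filter_le _ _).trans (Finset.card_image_le.trans ?_)
    rw [Finset.card_univ]
    simp only [Fintype.card_prod, Fintype.card_fin]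
    calc n * n * (n * n) = n ^ 4 := by ring
      _ ≤ n ^ 12 := Nat.pow_le_pow_right hn (by norm_num)
  have hEdeg : ∀ P ∈ E, P ≠ 0 ∧ P.totalDegree ≤ 2 := by
    intro P hP
    rw [hE, Finset.mem_filter, Finset.mem_image] at hP
    refine ⟨hP.2, ?_⟩
    obtain ⟨q, -, rfl⟩ := hP.1
    exact (deg_lp _ _).trans (by norm_num)
  have hS0 : 0 < S.card := by rw [hScard]; omega
  have hSn : 0 < S.card ^ n := pow_pos hS0 n
  -- the sums in `C t`
  set Bad1 : Finset (Fin n → ZMod p) := (univ : Finset (Fin n × τ)).biUnion fun q =>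
    (Fintype.piFinset (fun _ : Fin n => S)).filter fun f =>
      l + 2 + 4 * n * (C q.2).card / p ≤ (univ.filter fun j => f q.1 + f j ∈ C q.2).card with hBad1
  have hBadc : 4 * Bad1.card ≤ S.card ^ n := by
    have h1 : 2 ^ l * Bad1.card ≤ (n * Fintype.card τ) * S.card ^ n := by
      calc 2 ^ l * Bad1.card ≤ 2 ^ l * ∑ q : Fin n × τ,
            ((Fintype.piFinset (fun _ : Fin n => S)).filter fun f =>
              l + 2 + 4 * n * (C q.2).card / p ≤
                (univ.filter fun j => f q.1 + f j ∈ C q.2).card).card :=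
            Nat.mul_le_mul_left _ Finset.card_biUnion_le
        _ = ∑ q : Fin n × τ, 2 ^ l * ((Fintype.piFinset (fun _ : Fin n => S)).filter fun f =>
              l + 2 + 4 * n * (C q.2).card / p ≤
                (univ.filter fun j => f q.1 + f j ∈ C q.2).card).card := Finset.mul_sum _ _ _
        _ ≤ ∑ _q : Fin n × τ, S.card ^ n := by
            refine Finset.sum_le_sum fun q _ => ?_
            have h5 : p ≤ 2 * S.card := by
              rw [hScard]
              omega
            have h6 := few_bad (p := p) hn (by omega) S (C q.2) h5 q.1 l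
            refine le_trans (le_of_eq ?_) h6
            congr!
        _ = _ := by
            rw [Finset.sum_const, Finset.card_univ, Fintype.card_prod, Fintype.card_fin,
              smul_eq_mul]
    have h2 : 4 * (n * Fintype.card τ) * Bad1.card ≤ (n * Fintype.card τ) * S.card ^ n := by
      refine le_trans (Nat.mul_le_mul_right _ ?_) h1
      calc 4 * (n * Fintype.card τ) = 4 * n * Fintype.card τ := by ring
        _ ≤ _ := hl
    rcases Nat.eq_zero_or_pos (n * Fintype.card τ) with h0 | h0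
    · rw [h0, Nat.zero_mul] at h1
      have h3 : Bad1.card = 0 := by
        have h4 : 0 < 2 ^ l := by positivity
        rcases Nat.eq_zero_or_pos Bad1.card with h5 | h5
        · exact h5
        · have := Nat.mul_pos h4 h5
          omega
      omega
    · refine Nat.le_of_mul_le_mul_left (c := n * Fintype.card τ) ?_ h0
      calc n * Fintype.card τ * (4 * Bad1.card) = 4 * (n * Fintype.card τ) * Bad1.card := by ring
        _ ≤ _ := h2
  -- the systems
  set Bad2 : Finset (Fin n → ZMod p) := (Finset.range n).biUnion fun s => badS n S (s + 1)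
    with hBad2
  have hBadd : 8 * Bad2.card ≤ S.card ^ n := by
    refine le_trans (Nat.mul_le_mul_left _ Finset.card_biUnion_le) ?_
    refine sum_small n (S.card ^ n) (fun s => (badS n S (s + 1)).card) fun s hs => ?_
    refine card_badS S (s + 1) (by omega) hS0 ?_ ?_
    · rw [ZMod.card, hScard]
      omega
    · rw [ZMod.card]
      exact hp
  have hBad : 2 * (Bad1 ∪ Bad2).card < S.card ^ n := by
    have := Finset.card_union_le Bad1 Bad2
    omega
  obtain ⟨f, hfS, hfB, hfE⟩ := exists_good S E hEdeg (by rw [hScard]; omega) hS0 (Bad1 ∪ Bad2) hBad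
  rw [Finset.mem_union, not_or] at hfB
  have hfC : ∀ i t, (univ.filter fun j => f i + f j ∈ C t).card ≤
      l + 1 + 4 * n * (C t).card / p := by
    intro i t
    by_contra hc
    apply hfB.1
    rw [hBad1, Finset.mem_biUnion]
    refine ⟨(i, t), Finset.mem_univ _, ?_⟩
    rw [Finset.mem_filter, Fintype.mem_piFinset]
    refine ⟨hfS, ?_⟩
    simp only
    omega
  have hk : ∀ i, ∃ j : ℕ, 2 * j < p ∧ (j : ZMod p) = f i := by
    intro i
    obtain ⟨j, hj, hj'⟩ := Finset.mem_image.mp (hfS i)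
    rw [Finset.mem_range] at hj
    exact ⟨j, by
      have hodd : p % 2 = 1 := by
        rcases (Fact.out : p.Prime).eq_two_or_odd with h | h
        · omega
        · exact h
      omega, hj'⟩
  choose k hk1 hk2 using hk
  have hkf : (fun i => ((k i : ℕ) : ZMod p)) = f := funext hk2
  refine ⟨k, hk1, ?_, ?_⟩
  swap
  · intro i t
    simp only [hk2]
    exact hfC i t
  rw [hkf]
  refine ⟨?_, ?_⟩
  · intro a b hab
    obtain ⟨l, hl⟩ := wit_sidon (p := p) hp5 hab
    have hmem : lp p a - lp p b ∈ E := by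
      rw [hE, Finset.mem_filter]
      refine ⟨Finset.mem_image.mpr ⟨(a, b), Finset.mem_univ _, rfl⟩, fun h0 => hl ?_⟩
      have := congrArg (MvPolynomial.eval l) h0
      rwa [map_sub, eval_lp, eval_lp, map_zero] at this
    have h1 := hfE _ hmem
    rw [map_sub, eval_lp, eval_lp] at h1
    exact sub_ne_zero.mp h1
  · intro s hs q q' c c' g hg hfr
    by_contra hcon
    push Not at hcon
    apply hfB.2
    have hsn := fresh_le hfr
    rw [hBad2, Finset.mem_biUnion]
    obtain ⟨s', rfl⟩ : ∃ s', s = s' + 1 := ⟨s - 1, by omega⟩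
    refine ⟨s', Finset.mem_range.mpr (by omega), ?_⟩
    exact mem_badS hfS hg hfr hcon

end

end GGM3
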