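import Pool.Agent.H.MP_0427c5_lc.wh.Ex

/-!
# 3SUM-Indexing with hash functions of wide range: existence of the set, both kinds of generic position
-/

namespace GGM3

open Finset
open scoped Classical

section
variable {p : ℕ} [Fact p.Prime]

/-- both kinds of generic position at once -/
theorem exists_gen3 (n : ℕ) (hn : 1 ≤ n) (hp : 16 * n ^ 12 ≤ p) {τ : Type} [Fintype τ]
    (C : τ → Finset (ZMod p)) (l : ℕ) (hl : 4 * n * Fintype.card τ ≤ 2 ^ l) :
    ∃ k : Fin n → ℕ, (∀ i, 2 * k i < p) ∧ (Gen (fun i => ((k i : ℕ) : ZMod p)) ∧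
        Gen2 (fun i => ((k i : ℕ) : ZMod p))) ∧
      ∀ i t, (univ.filter fun j => ((k i : ℕ) : ZMod p) + ((k j : ℕ) : ZMod p) ∈ C t).card ≤
        l + 1 + 4 * n * (C t).card / p := by
  have hn12 : 1 ≤ n ^ 12 := Nat.one_le_pow _ _ hn
  have hp5 : 5 ≤ p := by omega
  set S : Finset (ZMod p) := (Finset.range ((p + 1) / 2)).image (fun j : ℕ => (j : ZMod p)) with hS
  have hScard : S.card = (p + 1) / 2 := by
    rw [hS, Finset.card_image_of_injOn, Finset.card_range]
    intro a ha b hb hab
    rw [Finset.coe_range, Set.mem_Iio] at ha hb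
    have h1 := congrArg ZMod.val hab
    simp only at h1
    rwa [ZMod.val_natCast_of_lt (by omega), ZMod.val_natCast_of_lt (by omega)] at h1
  set E : Finset (MvPolynomial (Fin n) (ZMod p)) :=
    ((univ.image fun q : (Fin n × Fin n) × (Fin n × Fin n) => lp p q.1 - lp p q.2) ∪
      (univ.image fun q : Fin 6 → Fin n × Fin n => qp p q)).filter fun P => P ≠ 0 with hE
  have hEcard : E.card ≤ 2 * n ^ 12 := by
    refine (Finset.card_filter_le _ _).trans ((Finset.card_union_le _ _).trans ?_)
    have h1 : (univ.image fun q : (Fin n × Fin n) × (Fin n × Fin n) =>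
        lp p q.1 - lp p q.2).card ≤ n ^ 4 := by
      refine Finset.card_image_le.trans (le_of_eq ?_)
      rw [Finset.card_univ]
      simp only [Fintype.card_prod, Fintype.card_fin]
      ring
    have h2 : (univ.image fun q : Fin 6 → Fin n × Fin n => qp p q).card ≤ n ^ 12 := by
      refine Finset.card_image_le.trans (le_of_eq ?_)
      rw [Finset.card_univ]
      simp only [Fintype.card_prod, Fintype.card_fin, Fintype.card_pi, Finset.prod_const,
        Finset.card_univ]
      ring
    have h3 : n ^ 4 ≤ n ^ 12 := Nat.pow_le_pow_right hn (by norm_num)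
    omega
  have hEdeg : ∀ P ∈ E, P ≠ 0 ∧ P.totalDegree ≤ 2 := by
    intro P hP
    rw [hE, Finset.mem_filter, Finset.mem_union, Finset.mem_image, Finset.mem_image] at hP
    refine ⟨hP.2, ?_⟩
    rcases hP.1 with ⟨q, -, rfl⟩ | ⟨q, -, rfl⟩
    · exact (deg_lp _ _).trans (by norm_num)
    · exact deg_qp q
  have hS0 : 0 < S.card := by rw [hScard]; omega
  have hSn : 0 < S.card ^ n := pow_pos hS0 n
  -- the sums in `C t`
  set Bad1 : Finset (Fin n → ZMod p) := (univ : Finset (Fin n × τ)).biUnion fun q =>
    (Fintype.piFinset (fun _ : Fin n => S)).filter fun f =>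
      l + 2 + 4 * n * (C q.2).card / p ≤ (univ.filter fun j => f q.1 + f j ∈ C q.2).card with hBad1
  have hBadc : 4 * Bad1.card ≤ S.card ^ n := by
    have h1 : 2 ^ l * Bad1.card ≤ (n * Fintype.card τ) * S.card ^ n := by
      calc 2 ^ l * Bad1.card ≤ 2 ^ l * ∑ q : Fin n × τ,
            ((Fintype.piFinset (fun _ : Fin n => S)).filter fun f =>
              l + 2 + 4 * n * (C q.2).card / p ≤
                (univ.filter fun j => f q.1 + f j ∈ C q.2).card).card :=
            Nat.mul_le_mul_left _ Finset.card_biUnion_le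
        _ = ∑ q : Fin n × τ, 2 ^ l * ((Fintype.piFinset (fun _ : Fin n => S)).filter fun f =>
              l + 2 + 4 * n * (C q.2).card / p ≤
                (univ.filter fun j => f q.1 + f j ∈ C q.2).card).card := Finset.mul_sum _ _ _
        _ ≤ ∑ _q : Fin n × τ, S.card ^ n := by
            refine Finset.sum_le_sum fun q _ => ?_
            have h5 : p ≤ 2 * S.card := by
              rw [hScard]
              omega
            have h6 := few_bad (p := p) hn (by omega) S (C q.2) h5 q.1 l
            refine le_trans (le_of_eq ?_) h6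
            congr!
        _ = _ := by
            rw [Finset.sum_const, Finset.card_univ, Fintype.card_prod, Fintype.card_fin,
              smul_eq_mul]
    have h2 : 4 * (n * Fintype.card τ) * Bad1.card ≤ (n * Fintype.card τ) * S.card ^ n := by
      refine le_trans (Nat.mul_le_mul_right _ ?_) h1
      calc 4 * (n * Fintype.card τ) = 4 * n * Fintype.card τ := by ring
        _ ≤ _ := hl
    rcases Nat.eq_zero_or_pos (n * Fintype.card τ) with h0 | h0
    · rw [h0, Nat.zero_mul] at h1
      have h3 : Bad1.card = 0 := by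
        have h4 : 0 < 2 ^ l := by positivity
        rcases Nat.eq_zero_or_pos Bad1.card with h5 | h5
        · exact h5
        · have := Nat.mul_pos h4 h5
          omega
      omega
    · refine Nat.le_of_mul_le_mul_left (c := n * Fintype.card τ) ?_ h0
      calc n * Fintype.card τ * (4 * Bad1.card) = 4 * (n * Fintype.card τ) * Bad1.card := by ring
        _ ≤ _ := h2
  -- the systems
  set Bad2 : Finset (Fin n → ZMod p) := (Finset.range n).biUnion fun s => badS n S (s + 1)
    with hBad2
  have hBadd : 8 * Bad2.card ≤ S.card ^ n := by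
    refine le_trans (Nat.mul_le_mul_left _ Finset.card_biUnion_le) ?_
    refine sum_small n (S.card ^ n) (fun s => (badS n S (s + 1)).card) fun s hs => ?_
    refine card_badS S (s + 1) (by omega) hS0 ?_ ?_
    · rw [ZMod.card, hScard]
      omega
    · rw [ZMod.card]
      exact hp
  have hBad : 2 * (Bad1 ∪ Bad2).card < S.card ^ n := by
    have := Finset.card_union_le Bad1 Bad2
    omega
  obtain ⟨f, hfS, hfB, hfE⟩ := exists_good S E hEdeg (by rw [hScard]; omega) hS0 (Bad1 ∪ Bad2) hBad
  rw [Finset.mem_union, not_or] at hfB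
  have hfC : ∀ i t, (univ.filter fun j => f i + f j ∈ C t).card ≤
      l + 1 + 4 * n * (C t).card / p := by
    intro i t
    by_contra hc
    apply hfB.1
    rw [hBad1, Finset.mem_biUnion]
    refine ⟨(i, t), Finset.mem_univ _, ?_⟩
    rw [Finset.mem_filter, Fintype.mem_piFinset]
    refine ⟨hfS, ?_⟩
    simp only
    omega
  have hk : ∀ i, ∃ j : ℕ, 2 * j < p ∧ (j : ZMod p) = f i := by
    intro i
    obtain ⟨j, hj, hj'⟩ := Finset.mem_image.mp (hfS i)
    rw [Finset.mem_range] at hj
    exact ⟨j, by
      have hodd : p % 2 = 1 := by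
        rcases (Fact.out : p.Prime).eq_two_or_odd with h | h
        · omega
        · exact h
      omega, hj'⟩
  choose k hk1 hk2 using hk
  have hkf : (fun i => ((k i : ℕ) : ZMod p)) = f := funext hk2
  refine ⟨k, hk1, ?_, ?_⟩
  swap
  · intro i t
    simp only [hk2]
    exact hfC i t
  rw [hkf]
  have hG : Gen f := by
    refine ⟨?_, ?_⟩
    · intro a b hab
      obtain ⟨l, hl⟩ := wit_sidon (p := p) hp5 hab
      have hmem : lp p a - lp p b ∈ E := by
        rw [hE, Finset.mem_filter, Finset.mem_union]
        refine ⟨Or.inl (Finset.mem_image.mpr ⟨(a, b), Finset.mem_univ _, rfl⟩), fun h0 => hl ?_⟩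
        have := congrArg (MvPolynomial.eval l) h0
        rwa [map_sub, eval_lp, eval_lp, map_zero] at this
      have h1 := hfE _ hmem
      rw [map_sub, eval_lp, eval_lp] at h1
      exact sub_ne_zero.mp h1
    · intro a b c a' b' c' ha hb hc hdj hac hbc hab' ha' hb'
      obtain ⟨l, hl⟩ := wit_quad (p := p) hp5 c' ha hb hc hdj hac hbc hab' ha' hb'
      have hev : ∀ g : Fin n → ZMod p, MvPolynomial.eval g (qp p ![a, b, c, a', b', c']) =
          (ps g a - ps g b) * (ps g a' - ps g c') - (ps g a - ps g c) * (ps g a' - ps g b') := by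
        intro g
        unfold qp
        simp only [map_sub, map_mul, eval_lp]
        rfl
      have hmem : qp p ![a, b, c, a', b', c'] ∈ E := by
        rw [hE, Finset.mem_filter, Finset.mem_union]
        refine ⟨Or.inr (Finset.mem_image.mpr ⟨_, Finset.mem_univ _, rfl⟩), fun h0 => hl ?_⟩
        have := congrArg (MvPolynomial.eval l) h0
        rwa [hev, map_zero] at this
      have h1 := hfE _ hmem
      rw [hev] at h1
      exact sub_ne_zero.mp h1
  refine ⟨hG, ⟨hG.sidon, ?_⟩⟩
  · intro s hs q q' c c' g hg hfr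
    by_contra hcon
    push Not at hcon
    apply hfB.2
    have hsn := fresh_le hfr
    rw [hBad2, Finset.mem_biUnion]
    obtain ⟨s', rfl⟩ : ∃ s', s = s' + 1 := ⟨s - 1, by omega⟩
    refine ⟨s', Finset.mem_range.mpr (by omega), ?_⟩
    exact mem_badS hfS hg hfr hcon

end

end GGM3
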