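import Mathlib

/-!
# 3SUM-Indexing with hash functions of wide range: the inequalities between the parameters
-/

namespace GGM3

/-- the negation of the conclusion -/
theorem wide_hyp {n u t a γ Λ : ℝ} (hn : 1 ≤ n) (ht : 1 ≤ t) (ha : 1 ≤ a)
    (hγ : 0 < γ) (hcon : 2 * 10 ^ 7 * a * t ^ 2 *
      (γ ^ 2 * n ^ 3 + 10 ^ 5 * Λ ^ 2 * t ^ 2 * (n + u) ^ 2) < γ ^ 4 * n ^ 5) :
    a * t ^ 2 * (162 * 10 ^ 5 * (9 * γ / 10) ^ 2 * n ^ 3 +
        13 * 10 ^ 11 * Λ ^ 2 * t ^ 2 * (n + u) ^ 2) ≤ (9 * γ / 10) ^ 4 * n ^ 5 ∧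
      162 * 10 ^ 5 * (a * t ^ 2) ≤ (9 * γ / 10) ^ 2 * n ^ 2 := by
  have hn0 : 0 < n := by linarith
  have h0 : 0 ≤ a * t ^ 2 * (Λ ^ 2 * t ^ 2 * (n + u) ^ 2) := by positivity
  have e1 : 2 * 10 ^ 7 * a * t ^ 2 * (γ ^ 2 * n ^ 3 + 10 ^ 5 * Λ ^ 2 * t ^ 2 * (n + u) ^ 2) =
      2 * 10 ^ 7 * (a * t ^ 2 * (γ ^ 2 * n ^ 3)) +
      2 * 10 ^ 12 * (a * t ^ 2 * (Λ ^ 2 * t ^ 2 * (n + u) ^ 2)) := by ring
  rw [e1] at hcon
  refine ⟨?_, ?_⟩
  · have e2 : a * t ^ 2 * (162 * 10 ^ 5 * (9 * γ / 10) ^ 2 * n ^ 3 +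
        13 * 10 ^ 11 * Λ ^ 2 * t ^ 2 * (n + u) ^ 2) =
        13122 * 10 ^ 3 * (a * t ^ 2 * (γ ^ 2 * n ^ 3)) +
        13 * 10 ^ 11 * (a * t ^ 2 * (Λ ^ 2 * t ^ 2 * (n + u) ^ 2)) := by ring
    have e3 : (9 * γ / 10) ^ 4 * n ^ 5 = 6561 / 10000 * (γ ^ 4 * n ^ 5) := by ring
    rw [e2, e3]
    linarith
  · have h1 : 162 * 10 ^ 5 * (a * t ^ 2) * (γ ^ 2 * n ^ 3) ≤
        (9 * γ / 10) ^ 2 * n ^ 2 * (γ ^ 2 * n ^ 3) := by
      have e2 : 162 * 10 ^ 5 * (a * t ^ 2) * (γ ^ 2 * n ^ 3) =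
          81 / 100 * (2 * 10 ^ 7 * (a * t ^ 2 * (γ ^ 2 * n ^ 3))) := by ring
      have e3 : (9 * γ / 10) ^ 2 * n ^ 2 * (γ ^ 2 * n ^ 3) = 81 / 100 * (γ ^ 4 * n ^ 5) := by ring
      rw [e2, e3]
      linarith
    exact le_of_mul_le_mul_right h1 (by positivity)

/-- few pairs are hit -/
theorem wide_count {n u t a g Λ s m θ N x κ v I : ℝ} (hn : 1 ≤ n) (hu : 0 ≤ u) (ht : 1 ≤ t)
    (ha : 1 ≤ a) (hg : 0 < g) (hΛ : 2 ≤ Λ)
    (h1 : 90000 * Λ * t * (n + u) ≤ g * n ^ 2)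
    (h2 : a * t ^ 2 * (162 * 10 ^ 5 * g ^ 2 * n ^ 3 + 13 * 10 ^ 11 * Λ ^ 2 * t ^ 2 * (n + u) ^ 2) ≤
      g ^ 4 * n ^ 5)
    (hs0 : 0 ≤ s) (hs : s ≤ 3 * t) (hm0 : 0 ≤ m) (hm : m * g ≤ 2 * a)
    (hθ : θ = g * n ^ 2 / (16 * t)) (hN0 : 0 < N) (hN : N ≤ (2 * Λ + 1) * u + 8 * n)
    (hx0 : 0 ≤ x) (hx : x ≤ m * s) (hκ1 : 33000 ≤ κ)
    (hκ2 : 500000 * (N ^ 2 * n) ≤ κ * θ ^ 2) (hκ3 : (κ - 33001) * θ ^ 2 ≤ 500000 * (N ^ 2 * n))
    (hv0 : 0 ≤ v) (hv : (v - 1) ^ 2 ≤ n * κ)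
    (hI : I ≤ 700 * N + 2 * (x * κ) ∨ 3 * (I * (κ - 1)) ≤ 2048 * (N * v)) : I ≤ θ := by
  have hn0 : 0 < n := by linarith
  have ht0 : 0 < t := by linarith
  have hθ0 : 0 < θ := by rw [hθ]; positivity
  have e1 : θ * (16 * t) = g * n ^ 2 := by
    rw [hθ]
    field_simp
  have f1 : N ≤ 4 * Λ * (n + u) := by nlinarith
  rcases hI with hI | hI
  · -- the first case
    have f2 : 700 * N * (16 * t) ≤ θ * (16 * t) / 2 := by
      rw [e1]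
      have h3 : 700 * N * (16 * t) ≤ 700 * (4 * Λ * (n + u)) * (16 * t) := by
        refine mul_le_mul_of_nonneg_right ?_ (by positivity)
        linarith
      nlinarith
    have f3 : 700 * N ≤ θ / 2 := by
      have h3 : 700 * N * (16 * t) ≤ θ / 2 * (16 * t) := by linarith
      exact le_of_mul_le_mul_right h3 (by positivity)
    -- `x g ≤ 6 a t`
    have f4 : x * g ≤ 6 * a * t := by
      calc x * g ≤ m * s * g := mul_le_mul_of_nonneg_right hx hg.le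
        _ = (m * g) * s := by ring
        _ ≤ (2 * a) * (3 * t) := mul_le_mul hm hs hs0 (by positivity)
        _ = _ := by ring
    -- `κ g² n³ ≤ 33001 g² n³ + 2048000000 Λ² t² (n + u)²`
    have f5 : (κ - 33001) * (g ^ 2 * n ^ 3) ≤ 2048 * 10 ^ 6 * (Λ ^ 2 * t ^ 2 * (n + u) ^ 2) := by
      have h3 : N ^ 2 ≤ 16 * Λ ^ 2 * (n + u) ^ 2 := by
        calc N ^ 2 ≤ (4 * Λ * (n + u)) ^ 2 := pow_le_pow_left₀ hN0.le f1 2
          _ = _ := by ring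
      have h4 : (κ - 33001) * (g ^ 2 * n ^ 3) * n ≤
          2048 * 10 ^ 6 * (Λ ^ 2 * t ^ 2 * (n + u) ^ 2) * n := by
        calc (κ - 33001) * (g ^ 2 * n ^ 3) * n = (κ - 33001) * (g * n ^ 2) ^ 2 := by ring
          _ = (κ - 33001) * θ ^ 2 * (16 * t) ^ 2 := by rw [← e1]; ring
          _ ≤ 500000 * (N ^ 2 * n) * (16 * t) ^ 2 :=
              mul_le_mul_of_nonneg_right hκ3 (by positivity)
          _ = 128 * 10 ^ 6 * t ^ 2 * n * N ^ 2 := by ring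
          _ ≤ 128 * 10 ^ 6 * t ^ 2 * n * (16 * Λ ^ 2 * (n + u) ^ 2) :=
              mul_le_mul_of_nonneg_left h3 (by positivity)
          _ = _ := by ring
      exact le_of_mul_le_mul_right h4 hn0
    have f6 : 384 * κ * (a * t ^ 2) ≤ g ^ 2 * n ^ 2 := by
      have h3 : 0 < g ^ 2 * n ^ 3 := by positivity
      have h4 : 384 * κ * (a * t ^ 2) * (g ^ 2 * n ^ 3) ≤ g ^ 2 * n ^ 2 * (g ^ 2 * n ^ 3) := by
        have h5 : a * t ^ 2 * ((κ - 33001) * (g ^ 2 * n ^ 3)) ≤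
            a * t ^ 2 * (2048 * 10 ^ 6 * (Λ ^ 2 * t ^ 2 * (n + u) ^ 2)) :=
          mul_le_mul_of_nonneg_left f5 (by positivity)
        have h6 : 0 ≤ a * t ^ 2 * (g ^ 2 * n ^ 3) := by positivity
        have h7 : 0 ≤ a * t ^ 2 * (Λ ^ 2 * t ^ 2 * (n + u) ^ 2) := by positivity
        nlinarith
      exact le_of_mul_le_mul_right h4 h3
    have f7 : 2 * (x * κ) ≤ θ / 2 := by
      have h3 : 2 * (x * κ) * (16 * t * g) ≤ θ / 2 * (16 * t * g) := by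
        have h4 : (32 * κ * t) * (x * g) ≤ (32 * κ * t) * (6 * a * t) :=
          mul_le_mul_of_nonneg_left f4 (by positivity)
        calc 2 * (x * κ) * (16 * t * g) = (32 * κ * t) * (x * g) := by ring
          _ ≤ (32 * κ * t) * (6 * a * t) := h4
          _ = 384 * κ * (a * t ^ 2) / 2 := by ring
          _ ≤ g ^ 2 * n ^ 2 / 2 := by linarith
          _ = θ * (16 * t) * g / 2 := by rw [e1]; ring
          _ = _ := by ring
      exact le_of_mul_le_mul_right h3 (by positivity)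
    linarith
  · -- the second case
    by_contra hc
    rw [not_le] at hc
    have hκ0 : 0 < κ := by linarith
    have g1 : 3 * (θ * (κ - 1)) < 2048 * (N * v) := by
      have h3 : θ * (κ - 1) < I * (κ - 1) := mul_lt_mul_of_pos_right hc (by linarith)
      linarith
    have g2 : (3 * (θ * (κ - 1))) ^ 2 < (2048 * (N * v)) ^ 2 :=
      pow_lt_pow_left₀ g1 (mul_nonneg (by norm_num) (mul_nonneg hθ0.le (by linarith))) two_ne_zero
    -- `v² ≤ 1.02 n κ`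
    have g3 : v ^ 2 ≤ 51 / 50 * (n * κ) := by
      have h3 : 33000 ≤ n * κ := by nlinarith
      by_contra h4
      rw [not_le] at h4
      have h5 : 181 ≤ v := by
        by_contra h6
        rw [not_le] at h6
        nlinarith
      nlinarith
    have g4 : (2048 * (N * v)) ^ 2 ≤ 4279000 * (N ^ 2 * n) * κ := by
      have h3 : N ^ 2 * v ^ 2 ≤ N ^ 2 * (51 / 50 * (n * κ)) :=
        mul_le_mul_of_nonneg_left g3 (sq_nonneg N)
      have h4 : 0 ≤ N ^ 2 * (n * κ) := by positivity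
      nlinarith
    have g5 : 8998 / 1000 * (θ ^ 2 * κ * κ) ≤ (3 * (θ * (κ - 1))) ^ 2 := by
      have h3 : 0 ≤ θ ^ 2 := sq_nonneg θ
      have h4 : 8998 / 1000 * (κ * κ) ≤ 9 * (κ - 1) ^ 2 := by nlinarith
      have h5 : θ ^ 2 * (8998 / 1000 * (κ * κ)) ≤ θ ^ 2 * (9 * (κ - 1) ^ 2) :=
        mul_le_mul_of_nonneg_left h4 h3
      nlinarith
    have g6 : 8998 / 1000 * (500000 * (N ^ 2 * n)) * κ ≤ 8998 / 1000 * (θ ^ 2 * κ * κ) := by
      have h3 : 500000 * (N ^ 2 * n) * κ ≤ κ * θ ^ 2 * κ := mul_le_mul_of_nonneg_right hκ2 hκ0.le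
      nlinarith
    have g7 : 0 < N ^ 2 * n * κ := by positivity
    nlinarith

/-- the other inequalities -/
theorem wide_num2 {n u t a g Λ s m θ c β : ℝ} (hn : 1 ≤ n) (hu : 0 ≤ u) (ht : 1 ≤ t)
    (ha : 1 ≤ a) (hg : 0 < g) (hg2 : g ≤ 1 / 2) (hΛ : 2 ≤ Λ)
    (h1 : 90000 * Λ * t * (n + u) ≤ g * n ^ 2) (h3 : 45 / 2 * t ^ 2 * u ≤ g * n ^ 2)
    (h2 : 162 * 10 ^ 5 * (a * t ^ 2) ≤ g ^ 2 * n ^ 2)
    (hs0 : 0 ≤ s) (hs : s ≤ 3 * t) (hm0 : 0 ≤ m) (hm : m * g ≤ 2 * a)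
    (hθ : θ = g * n ^ 2 / (16 * t)) (hc : c ≤ n + θ) (hβ : 9 * n ^ 2 ≤ 20 * β) :
    2 * t * (u * s + c) + s * s * (m + 1) ≤ g * β ∧ 2 * (s * s * (m + 1)) ≤ n ^ 2 := by
  have hn0 : 0 < n := by linarith
  have ht0 : 0 < t := by linarith
  have hG : 0 < g * n ^ 2 := by positivity
  have e1 : θ * (16 * t) = g * n ^ 2 := by
    rw [hθ]
    field_simp
  -- the part of the repetitions
  have d1 : 9 * t ^ 2 * (m + 1) ≤ g * n ^ 2 / 100 := by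
    have h3 : g * (9 * t ^ 2 * (m + 1)) ≤ g * (g * n ^ 2 / 100) := by
      have h4 : (m + 1) * g ≤ 5 * a / 2 := by nlinarith
      have h5 : (9 * t ^ 2) * ((m + 1) * g) ≤ (9 * t ^ 2) * (5 * a / 2) :=
        mul_le_mul_of_nonneg_left h4 (by positivity)
      have h6 : 0 ≤ a * t ^ 2 := by positivity
      nlinarith
    exact le_of_mul_le_mul_left h3 hg
  have d2 : s * s * (m + 1) ≤ g * n ^ 2 / 100 := by
    refine le_trans ?_ d1
    refine mul_le_mul_of_nonneg_right ?_ (by linarith)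
    nlinarith
  have d3 : g * n ^ 2 ≤ n ^ 2 / 2 := by nlinarith [sq_nonneg n]
  refine ⟨?_, by linarith⟩
  have g1 : 2 * t * (u * s) ≤ 4 / 15 * (g * n ^ 2) := by
    have h3 : u * s ≤ u * (3 * t) := mul_le_mul_of_nonneg_left hs hu
    have h4 : 2 * t * (u * s) ≤ 2 * t * (u * (3 * t)) :=
      mul_le_mul_of_nonneg_left h3 (by positivity)
    nlinarith
  have g2 : 2 * t * c ≤ g * n ^ 2 / 100 + g * n ^ 2 / 8 := by
    have h7 : 2 * t * c ≤ 2 * t * (n + θ) := mul_le_mul_of_nonneg_left hc (by positivity)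
    have h8 : 2 * t * n ≤ g * n ^ 2 / 100 := by
      have h9 : 2 * (t * (n + u)) ≤ Λ * (t * (n + u)) :=
        mul_le_mul_of_nonneg_right hΛ (by positivity)
      have h10 : 0 ≤ t * u := by positivity
      nlinarith
    nlinarith
  have h7 : 9 * (g * n ^ 2) / 20 ≤ g * β := by
    have := mul_le_mul_of_nonneg_left hβ hg.le
    linarith
  nlinarith

end GGM3
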