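import Pool.Agent.H.MP_0427c5_lc.hf.Fin
import Pool.Agent.H.MP_0427c5_lc.wh.Cov
import Pool.Agent.H.MP_0427c5_lc.wh.Num

/-!
# 3SUM-Indexing with hash functions of wide range: the lower bound for a set in generic position
-/

namespace GGM3

open Finset

variable {n : ℕ} {K W : Type} [Field K] [Fintype K] [Fintype W]

theorem wide_core (hn : 1 ≤ n) (hK : 2 * n ^ 2 ≤ Fintype.card K) {k : Fin n → K} (hk : Gen k)
    (hk2 : Gen2 k) {M : ℕ} (h : Fin M → K → W) (Λ : ℕ) (hΛ : 2 ≤ Λ) (r : Fin M → W → ℕ)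
    (hr : ∀ s i w, ∀ J : Finset (Fin n), (∀ j ∈ J, h s (k i + k j) = w) → J.card ≤ r s w)
    (hrs : ∀ s, ∑ w, r s w ≤ Fintype.card W * Λ + 4 * n)
    (hbad : Fintype.card W < n ^ 2 → ∀ s, (badC (h s) (allS k) (goodC n (h s))).card ≤ n * Λ)
    {S T : ℕ} {Ω : Type} [Fintype Ω] [Nonempty Ω] [DecidableEq K] [DecidableEq W]
    (D : HashStructure K W M S Ω) (γ : ℝ) (hγ : 0 < γ)
    (herr : avgErr h D T (allS k) ≤ 1 / 2 - γ)
    (hA : 10 ^ 5 * (Λ : ℝ) * (T + 1) * (n + Fintype.card W) ≤ γ * n ^ 2)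
    (hB : 25 * ((T : ℝ) + 1) ^ 2 * Fintype.card W ≤ γ * n ^ 2) :
    γ ^ 4 * n ^ 5 ≤ 2 * 10 ^ 7 * (S + 1) * (T + 1) ^ 2 *
      (γ ^ 2 * n ^ 3 + 10 ^ 5 * (Λ : ℝ) ^ 2 * (T + 1) ^ 2 * (n + Fintype.card W) ^ 2) := by
  classical
  have hinst : ‹DecidableEq K› = fun a b => Classical.propDecidable (a = b) :=
    Subsingleton.elim _ _
  subst hinst
  by_contra hcon
  rw [not_le] at hcon
  have hn1 : (1 : ℝ) ≤ n := by exact_mod_cast hn
  have hT0 : (0 : ℝ) ≤ T := Nat.cast_nonneg _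
  have hS0 : (0 : ℝ) ≤ S := Nat.cast_nonneg _
  have hu0 : (0 : ℝ) ≤ (Fintype.card W : ℝ) := Nat.cast_nonneg _
  have hΛ1 : (2 : ℝ) ≤ Λ := by exact_mod_cast hΛ
  have hΩ : (0 : ℝ) < Fintype.card Ω := by exact_mod_cast Fintype.card_pos
  have hP : (0 : ℝ) < Fintype.card (Equiv.Perm K) := by exact_mod_cast Fintype.card_pos
  have hγ2 : γ ≤ 1 / 2 := by
    have h1 : 0 ≤ avgErr h D T (allS k) := by
      unfold avgErr
      exact div_nonneg (Finset.sum_nonneg fun ω _ => Finset.sum_nonneg fun σ _ =>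
        hashErr_nonneg _ _ _ _ _) (mul_pos hΩ hP).le
    linarith
  obtain ⟨g, hg⟩ : ∃ g : ℝ, g = 9 * γ / 10 := ⟨_, rfl⟩
  obtain ⟨hw2, hw4⟩ := wide_hyp (n := (n : ℝ)) (u := (Fintype.card W : ℝ)) (t := (T : ℝ) + 1)
    (a := (S : ℝ) + 1) (γ := γ) (Λ := (Λ : ℝ)) hn1 (by linarith) (by linarith) hγ hcon
  rw [← hg] at hw2 hw4
  have hg0 : 0 < g := by rw [hg]; positivity
  have hg2 : g ≤ 1 / 2 := by rw [hg]; linarith
  have hw1 : 90000 * (Λ : ℝ) * ((T : ℝ) + 1) * (n + Fintype.card W) ≤ g * n ^ 2 := by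
    rw [hg]
    linarith
  have hw3 : 45 / 2 * ((T : ℝ) + 1) ^ 2 * Fintype.card W ≤ g * n ^ 2 := by
    rw [hg]
    linarith
  have hΛt : (Λ : ℝ) * (n + Fintype.card W) ≤ Λ * (T + 1) * (n + Fintype.card W) := by
    have h1 : 0 ≤ (Λ : ℝ) * T * (n + Fintype.card W) := by positivity
    nlinarith
  have hΛn : 20 * (Λ : ℝ) ≤ γ * n := by
    have h1 : 20 * (Λ : ℝ) * n ≤ γ * n * n := by
      have h2 : 0 ≤ (Λ : ℝ) * Fintype.card W := by positivity
      nlinarith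
    exact le_of_mul_le_mul_right h1 (by linarith)
  have hun : (Fintype.card W : ℝ) < (n : ℝ) ^ 2 := by
    have h1 : (Fintype.card W : ℝ) ≤ Λ * (n + Fintype.card W) := by
      have h2 : 1 * ((n : ℝ) + Fintype.card W) ≤ Λ * (n + Fintype.card W) :=
        mul_le_mul_of_nonneg_right (by linarith) (by linarith)
      linarith
    nlinarith [sq_nonneg (n : ℝ)]
  have hun' : Fintype.card W < n ^ 2 := by exact_mod_cast hun
  have hbad := hbad hun'
  -- the number of repetitions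
  obtain ⟨q, hq⟩ : ∃ q : ℕ, q = ⌈3 / (2 * g)⌉₊ := ⟨_, rfl⟩
  have hqg : (q : ℝ) * g ≤ 2 := by
    have h1 : (q : ℝ) < 3 / (2 * g) + 1 := by
      rw [hq]
      exact Nat.ceil_lt_add_one (by positivity)
    have h2 : (q : ℝ) * g ≤ (3 / (2 * g) + 1) * g := mul_le_mul_of_nonneg_right h1.le hg0.le
    have h3 : (3 / (2 * g) + 1) * g = 3 / 2 + g := by field_simp
    linarith
  obtain ⟨m, hm⟩ : ∃ m : ℕ, m = (S + 1) * q := ⟨_, rfl⟩
  have hmg : (m : ℝ) * g ≤ 2 * ((S : ℝ) + 1) := by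
    have h1 : (m : ℝ) = ((S : ℝ) + 1) * q := by
      rw [hm]
      push_cast
      ring
    rw [h1]
    nlinarith
  obtain ⟨s, hs⟩ : ∃ s : ℕ, s = 3 * T + 1 := ⟨_, rfl⟩
  have hsR : (s : ℝ) = 3 * T + 1 := by
    rw [hs]
    push_cast
    ring
  obtain ⟨θ, hθ⟩ : ∃ θ : ℝ, θ = g * n ^ 2 / (16 * ((T : ℝ) + 1)) := ⟨_, rfl⟩
  have hθ00 : 0 ≤ θ := by
    rw [hθ]
    exact div_nonneg (mul_nonneg hg0.le (sq_nonneg _)) (by linarith)
  obtain ⟨c, hcdef⟩ : ∃ c : ℕ, c = n + ⌊θ⌋₊ := ⟨_, rfl⟩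
  have hcθ : (c : ℝ) ≤ n + θ := by
    rw [hcdef]
    push_cast
    have := Nat.floor_le hθ00
    linarith
  -- the pieces
  obtain ⟨N, hN⟩ : ∃ N : ℕ, N = 2 * (Fintype.card W * Λ + 4 * n) + Fintype.card W := ⟨_, rfl⟩
  have hNR : (N : ℝ) ≤ (2 * Λ + 1) * Fintype.card W + 8 * n := by
    rw [hN]
    push_cast
    linarith
  have hN0 : 0 < N := by
    rw [hN]
    have : 0 ≤ Fintype.card W * Λ := Nat.zero_le _
    omega
  have hθ0 : 0 < θ := by
    rw [hθ]
    positivity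
  have hNpos : (0 : ℝ) < N := by exact_mod_cast hN0
  obtain ⟨κ, hκ⟩ : ∃ κ : ℕ, κ = 33000 + ⌈500000 * ((N : ℝ) ^ 2 * n) / θ ^ 2⌉₊ := ⟨_, rfl⟩
  have hκ0 : 33000 ≤ κ := by
    rw [hκ]
    exact Nat.le_add_right _ _
  have hκR : (κ : ℝ) = 33000 + (⌈500000 * ((N : ℝ) ^ 2 * n) / θ ^ 2⌉₊ : ℝ) := by
    rw [hκ]
    push_cast
    rfl
  have hκ1 : (33000 : ℝ) ≤ κ := by exact_mod_cast hκ0
  have hκ2 : 500000 * ((N : ℝ) ^ 2 * n) ≤ κ * θ ^ 2 := by
    rw [← div_le_iff₀ (by positivity)]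
    have h1 := Nat.le_ceil (500000 * ((N : ℝ) ^ 2 * n) / θ ^ 2)
    linarith
  have hκ3 : ((κ : ℝ) - 33001) * θ ^ 2 ≤ 500000 * ((N : ℝ) ^ 2 * n) := by
    rw [← le_div_iff₀ (by positivity)]
    have h1 := (Nat.ceil_lt_add_one (a := 500000 * ((N : ℝ) ^ 2 * n) / θ ^ 2) (by positivity)).le
    linarith
  obtain ⟨v, hv⟩ : ∃ v : ℕ, v = Nat.sqrt (n * κ) + 1 := ⟨_, rfl⟩
  have hvn : n * κ ≤ v ^ 2 := by
    rw [hv, sq]
    exact (Nat.lt_succ_sqrt (n * κ)).le
  have hvR : ((v : ℝ) - 1) ^ 2 ≤ n * κ := by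
    have h1 : (v : ℝ) - 1 = Nat.sqrt (n * κ) := by
      rw [hv]
      push_cast
      ring
    rw [h1, sq]
    exact_mod_cast Nat.sqrt_le (n * κ)
  -- the sizes
  have hBge : (n : ℝ) ^ 2 ≤ 2 * ((allS k).card : ℝ) := by exact_mod_cast card_allS_ge hk
  have hBle := card_allS_le k
  have hbadR : ∀ i, ((badC (h i) (allS k) (goodC n (h i))).card : ℝ) ≤ γ * n ^ 2 / 20 := by
    intro i
    have h1 : ((badC (h i) (allS k) (goodC n (h i))).card : ℝ) ≤ n * Λ := by
      exact_mod_cast hbad i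
    have h2 : (n : ℝ) * (20 * Λ) ≤ n * (γ * n) := mul_le_mul_of_nonneg_left hΛn (by linarith)
    nlinarith
  have hβ : ∀ i, 9 * (n : ℝ) ^ 2 ≤
      20 * ((∑ w, (yesC (h i) (allS k) (goodC n (h i)) w).card : ℕ) : ℝ) := by
    intro i
    have h1 : ((∑ w, (yesC (h i) (allS k) (goodC n (h i)) w).card : ℕ) : ℝ) +
        ((badC (h i) (allS k) (goodC n (h i))).card : ℝ) = (allS k).card := by
      exact_mod_cast sum_yesC_add (h i) (allS k) (goodC n (h i))
    have h2 := hbadR i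
    have h3 : γ * (n : ℝ) ^ 2 ≤ n ^ 2 / 2 := by nlinarith [sq_nonneg (n : ℝ)]
    nlinarith [sq_nonneg (n : ℝ)]
  have hnum := fun i => wide_num2 (n := (n : ℝ)) (u := (Fintype.card W : ℝ)) (t := (T : ℝ) + 1)
    (a := (S : ℝ) + 1) (g := g) (Λ := (Λ : ℝ)) (s := (s : ℝ)) (m := (m : ℝ)) (θ := θ)
    (c := (c : ℝ)) hn1 hu0 (by linarith) (by linarith) hg0 hg2 hΛ1 hw1 hw3 hw4
    (Nat.cast_nonneg _) (by rw [hsR]; linarith) (Nat.cast_nonneg _) hmg hθ hcθ (hβ i)
  -- the moments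
  refine core_abs (P := Equiv.Perm K) (fun ω μ σ => hitF (D.query ω μ) σ T
    (yesC (h (D.seed ω μ)) (allS k) (goodC n (h (D.seed ω μ))))
    (noC (h (D.seed ω μ)) (allS k))) D.pre (fun ω μ σ => hitF_nonneg _ _ _ _ _) g hg0 hg2 ?_
    m (by rw [hm, hq]) ((1 + g) / 2) (by linarith) le_rfl ?_
  · -- the success probability
    have hB0 : (0 : ℝ) < (allS k).card := by nlinarith
    have h1 : ∀ ω σ, 1 - hashErr (h (D.seed ω (D.pre ω σ))) (D.query ω (D.pre ω σ)) σ T (allS k) ≤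
        hitF (D.query ω (D.pre ω σ)) σ T
          (yesC (h (D.seed ω (D.pre ω σ))) (allS k) (goodC n (h (D.seed ω (D.pre ω σ)))))
          (noC (h (D.seed ω (D.pre ω σ))) (allS k)) + γ / 10 := by
      intro ω σ
      have h2 := err_le (h (D.seed ω (D.pre ω σ))) (D.query ω (D.pre ω σ)) σ T (allS k)
        (goodC n (h (D.seed ω (D.pre ω σ)))) (fun w hw => by
          have := noC_large _ hw
          have h3 : 0 < n ^ 2 := by positivity
          exact Finset.card_pos.mp (by omega))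
      have h3 := hbadR (D.seed ω (D.pre ω σ))
      have h4 : γ * (n : ℝ) ^ 2 / 20 ≤ (allS k).card * (γ / 10) := by nlinarith
      refine le_of_mul_le_mul_left ?_ hB0
      rw [mul_add]
      linarith
    have h2 : (∑ ω : Ω, ∑ σ : Equiv.Perm K, (1 : ℝ)) = Fintype.card Ω * Fintype.card (Equiv.Perm K) := by
      rw [Finset.sum_const, Finset.sum_const, Finset.card_univ, Finset.card_univ, nsmul_eq_mul,
        nsmul_eq_mul, mul_one]
    have hW : (0 : ℝ) < Fintype.card Ω * Fintype.card (Equiv.Perm K) := mul_pos hΩ hP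
    rw [le_div_iff₀ hW]
    have h3 : (∑ ω, ∑ σ, hashErr (h (D.seed ω (D.pre ω σ))) (D.query ω (D.pre ω σ)) σ T (allS k)) ≤
        (1 / 2 - γ) * (Fintype.card Ω * Fintype.card (Equiv.Perm K)) := by
      unfold avgErr at herr
      rwa [div_le_iff₀ hW] at herr
    have h4 : ∑ ω : Ω, ∑ σ : Equiv.Perm K,
        (1 - hashErr (h (D.seed ω (D.pre ω σ))) (D.query ω (D.pre ω σ)) σ T (allS k)) ≤
        ∑ ω : Ω, ∑ σ : Equiv.Perm K, (hitF (D.query ω (D.pre ω σ)) σ T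
          (yesC (h (D.seed ω (D.pre ω σ))) (allS k) (goodC n (h (D.seed ω (D.pre ω σ)))))
          (noC (h (D.seed ω (D.pre ω σ))) (allS k)) + γ / 10 * 1) := by
      refine Finset.sum_le_sum fun ω _ => Finset.sum_le_sum fun σ _ => ?_
      rw [mul_one]
      exact h1 ω σ
    simp only [Finset.sum_sub_distrib, Finset.sum_add_distrib, ← Finset.mul_sum] at h4
    rw [h2] at h4
    rw [hg]
    linarith
  · intro ω μ
    obtain ⟨i, hi⟩ : ∃ i, i = D.seed ω μ := ⟨_, rfl⟩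
    rw [← hi]
    obtain ⟨d3, d4⟩ := hnum i
    have hβN : 0 < ∑ w, (yesC (h i) (allS k) (goodC n (h i)) w).card := by
      have h1 := hβ i
      have h2 : (0 : ℝ) < ((∑ w, (yesC (h i) (allS k) (goodC n (h i)) w).card : ℕ) : ℝ) := by
        nlinarith
      exact_mod_cast h2
    have hβle : ∑ w, (yesC (h i) (allS k) (goodC n (h i)) w).card ≤ n ^ 2 := by
      have := sum_yesC_add (h i) (allS k) (goodC n (h i))
      omega
    have h5 := hf_moment_univ (D.query ω μ) T s m c (by omega)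
      (yesC (h i) (allS k) (goodC n (h i))) (noC (h i) (allS k)) hβN
      (fun w hw => hβle.trans (noC_large _ hw)) ?_ ?_
    · refine h5.trans ?_
      refine mul_le_mul_of_nonneg_right (pow_le_pow_left₀ ?_ ?_ m) hP.le
      · have h1 : 0 ≤ (((2 * T + 1) * (Fintype.card W * s + c) + s * s * (m + 1) : ℕ) : ℝ) /
            ((∑ w, (yesC (h i) (allS k) (goodC n (h i)) w).card : ℕ) : ℝ) :=
          div_nonneg (Nat.cast_nonneg _) (Nat.cast_nonneg _)
        linarith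
      · have hβR : (0 : ℝ) < ((∑ w, (yesC (h i) (allS k) (goodC n (h i)) w).card : ℕ) : ℝ) := by
          exact_mod_cast hβN
        have h1 : (((2 * T + 1) * (Fintype.card W * s + c) + s * s * (m + 1) : ℕ) : ℝ) /
            ((∑ w, (yesC (h i) (allS k) (goodC n (h i)) w).card : ℕ) : ℝ) ≤ g := by
          rw [div_le_iff₀ hβR]
          refine le_trans ?_ d3
          push_cast
          refine add_le_add_left ?_ _
          refine mul_le_mul_of_nonneg_right (by linarith) ?_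
          exact add_nonneg (mul_nonneg hu0 (Nat.cast_nonneg _)) (Nat.cast_nonneg _)
        linarith
    · have h1 : (2 * (s * s * (m + 1)) : ℕ) ≤ n ^ 2 := by
        have : ((2 * (s * s * (m + 1)) : ℕ) : ℝ) ≤ ((n ^ 2 : ℕ) : ℝ) := by
          push_cast
          exact d4
        exact_mod_cast this
      omega
    · intro X hX g'
      obtain ⟨I, hI1, hI2⟩ := cover_wide (fun q => h i (ps k q)) (fun a b => by
        unfold ps
        rw [add_comm]) hk2 (r := r i) (fun a w =>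
          hr i a w _ fun j hj => by
            simp only [Finset.mem_filter, Finset.mem_univ, true_and] at hj
            exact hj) X g' (N := N) (v := v) (κ := κ) (by
              rw [hN]
              exact Nat.add_le_add_right (Nat.mul_le_mul_left _ (hrs i)) _) hN0 hκ0 hvn
      have hI : (I : ℝ) ≤ θ := by
        refine wide_count (n := (n : ℝ)) (u := (Fintype.card W : ℝ)) (t := (T : ℝ) + 1)
          (a := (S : ℝ) + 1) (g := g) (Λ := (Λ : ℝ)) (s := (s : ℝ)) (m := (m : ℝ)) (θ := θ)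
          (N := (N : ℝ)) (x := (X.card : ℝ)) (κ := (κ : ℝ)) (v := (v : ℝ)) hn1 hu0 (by linarith)
          (by linarith) hg0 hΛ1 hw1 hw2 (Nat.cast_nonneg _) (by rw [hsR]; linarith)
          (Nat.cast_nonneg _) hmg hθ hNpos hNR (Nat.cast_nonneg _) (by exact_mod_cast hX) hκ1 hκ2
          hκ3 (Nat.cast_nonneg _) hvR ?_
        rcases hI2 with h2 | h2
        · left
          exact_mod_cast h2
        · right
          have h3 : ((κ - 1 : ℕ) : ℝ) = (κ : ℝ) - 1 := by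
            rw [Nat.cast_sub (by omega), Nat.cast_one]
          rw [← h3]
          exact_mod_cast h2
      have h3 : I ≤ ⌊θ⌋₊ := Nat.le_floor hI
      have h4 : ∑ w, (hits (g' w) X (yesC (h i) (allS k) (goodC n (h i)) w)).card ≤
          ∑ w, (hits (g' w) X (bk (fun q => h i (ps k q)) k w)).card := by
        refine Finset.sum_le_sum fun w _ => Finset.card_le_card fun z hz => ?_
        unfold hits at hz ⊢
        rw [Finset.mem_filter] at hz ⊢
        exact ⟨yesC_sub (h i) k _ w hz.1, hz.2⟩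
      refine h4.trans (le_trans ?_ ((Nat.add_le_add_left h3 n).trans (le_of_eq hcdef.symm)))
      exact hI1

end GGM3
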