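import Pool.Agent.H.MP_0427c5_lc.wh.Ex

/-!
# 3SUM-Indexing with hash functions of wide range: coincidences with new indices
-/

namespace GGM3

open Finset
open scoped Classical

/-- greedy choice of elements with new values of `v` -/
theorem greedy {ω V : Type*} [DecidableEq V] (O : Finset ω) (v : ω → V) (T : ω → Finset V)
    (hT : ∀ o ∈ O, (T o).card ≤ 4) (m : ℕ) (hm : 4 * m ≤ (O.image v).card) :
    ∃ f : Fin m → ω, (∀ j, f j ∈ O) ∧ ∀ j l, l < j → v (f j) ∉ T (f l) := by
  induction m with
  | zero => exact ⟨fun j => j.elim0, fun j => j.elim0, fun j => j.elim0⟩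
  | succ m ih =>
    obtain ⟨f, hf1, hf2⟩ := ih (by omega)
    have h1 : (univ.biUnion fun l : Fin m => T (f l)).card ≤ 4 * m := by
      refine Finset.card_biUnion_le.trans ?_
      calc ∑ l : Fin m, (T (f l)).card ≤ ∑ _l : Fin m, 4 :=
            Finset.sum_le_sum fun l _ => hT _ (hf1 l)
        _ = 4 * m := by
            rw [Finset.sum_const, Finset.card_univ, Fintype.card_fin, smul_eq_mul, mul_comm]
    obtain ⟨x, hx, hxn⟩ : ∃ x ∈ O.image v, x ∉ univ.biUnion fun l : Fin m => T (f l) := by
      by_contra hcon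
      push Not at hcon
      have := Finset.card_le_card (fun x hx => hcon x hx :
        O.image v ⊆ univ.biUnion fun l : Fin m => T (f l))
      omega
    obtain ⟨o, ho, rfl⟩ := Finset.mem_image.mp hx
    refine ⟨Fin.snoc f o, fun j => ?_, fun j l hlj => ?_⟩
    · refine Fin.lastCases ?_ (fun i => ?_) j
      · rw [Fin.snoc_last]
        exact ho
      · rw [Fin.snoc_castSucc]
        exact hf1 i
    · obtain ⟨l', rfl⟩ : ∃ l' : Fin m, l = l'.castSucc := by
        have : (l : ℕ) < m := by
          have := j.2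
          have := Fin.lt_def.mp hlj
          omega
        exact ⟨⟨l, this⟩, rfl⟩
      rw [Fin.snoc_castSucc]
      revert hlj
      refine Fin.lastCases (fun _ => ?_) (fun i hi => ?_) j
      · rw [Fin.snoc_last]
        intro h
        exact hxn (Finset.mem_biUnion.mpr ⟨l', Finset.mem_univ _, h⟩)
      · rw [Fin.snoc_castSucc]
        exact hf2 i l' (Fin.castSucc_lt_castSucc_iff.mp hi)

variable {n : ℕ} {K : Type} [Field K] {ω U : Type*}

theorem few_fresh {k : Fin n → K} (hk : Gen2 k) (O : Finset ω) (q q' : ω → Fin n × Fin n)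
    (a b : ω → U) (g : U → K × K) (W : Finset U) (ha : ∀ o ∈ O, a o ∈ W) (hb : ∀ o ∈ O, b o ∈ W)
    (hg : ∀ o ∈ O, (g (a o)).1 ≠ 0)
    (hq : ∀ o ∈ O, (q o).1 ≠ (q o).2 ∧ (q o).1 ≠ (q' o).1 ∧ (q o).1 ≠ (q' o).2)
    (heq : ∀ o ∈ O, ev (g (a o)) (ps k (q o)) = ev (g (b o)) (ps k (q' o))) :
    (O.image fun o => (q o).1).card ≤ 16 * W.card := by
  by_contra hcon
  rw [not_le] at hcon
  have hW : 0 < W.card := by
    rcases Nat.eq_zero_or_pos W.card with h | h
    · exfalso
      rw [Finset.card_eq_zero] at h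
      have hO : O = ∅ := by
        rw [Finset.eq_empty_iff_forall_notMem]
        intro o ho
        have := ha o ho
        rw [h] at this
        exact Finset.notMem_empty _ this
      rw [hO, Finset.image_empty, Finset.card_empty] at hcon
      omega
    · exact h
  obtain ⟨f, hf1, hf2⟩ := greedy O (fun o => (q o).1)
    (fun o => {(q o).1, (q o).2, (q' o).1, (q' o).2}) (fun o _ => by
      refine (Finset.card_insert_le _ _).trans ?_
      have h1 := Finset.card_insert_le (q o).2 {(q' o).1, (q' o).2}
      have h2 := Finset.card_le_two (a := (q' o).1) (b := (q' o).2)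
      omega) (4 * W.card) (by omega)
  obtain ⟨j, hj⟩ := hk.indep W.card hW (fun j => q (f j)) (fun j => q' (f j))
    (fun j => W.equivFin ⟨a (f j), ha _ (hf1 j)⟩) (fun j => W.equivFin ⟨b (f j), hb _ (hf1 j)⟩)
    (fun i => g (W.equivFin.symm i)) (fun j => by
      simp only [Equiv.symm_apply_apply]
      exact hg _ (hf1 j)) ⟨fun j => hq _ (hf1 j), fun j l hlj => by
      have := hf2 j l hlj
      simp only [Finset.mem_insert, Finset.mem_singleton, not_or] at this
      exact this⟩
  simp only [Equiv.symm_apply_apply] at hj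
  exact hj (heq _ (hf1 j))

end GGM3
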