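import Pool.Agent.H.MP_0427c5_lc.hf.Thm
import Pool.Agent.H.MP_0427c5_lc.wh.Ex3
import Pool.Agent.H.MP_0427c5_lc.wh.Fin

/-!
# 3SUM-Indexing with hash functions of wide range: the theorem
-/

namespace GGM3

open Finset

theorem wide_result (n p M : ℕ) [Fact p.Prime] (hn : 1 ≤ n) (hp : 16 * n ^ 12 ≤ p) (W : Type)
    [Fintype W] [DecidableEq W] (h : Fin M → ZMod p → W) :
    ∃ A : Finset ℕ, A.card = n ∧ (∀ a ∈ A, 2 * a < p) ∧
      ∀ (S T : ℕ) (Ω : Type) [Fintype Ω] [Nonempty Ω] (D : HashStructure (ZMod p) W M S Ω) (γ : ℝ),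
        0 < γ → avgErr h D T (sums p A) ≤ 1 / 2 - γ →
        10 ^ 5 * ((Nat.log 2 (n * M * (Fintype.card W + 1)) + 4 : ℕ) : ℝ) * (T + 1) *
          (n + Fintype.card W) ≤ γ * n ^ 2 →
        25 * ((T : ℝ) + 1) ^ 2 * Fintype.card W ≤ γ * n ^ 2 →
        γ ^ 4 * n ^ 5 ≤ 2 * 10 ^ 7 * (S + 1) * (T + 1) ^ 2 * (γ ^ 2 * n ^ 3 +
          10 ^ 5 * ((Nat.log 2 (n * M * (Fintype.card W + 1)) + 4 : ℕ) : ℝ) ^ 2 * (T + 1) ^ 2 *
            (n + Fintype.card W) ^ 2) := by
  classical
  obtain ⟨L, hL⟩ : ∃ L : ℕ, L = Nat.log 2 (n * M * (Fintype.card W + 1)) + 3 := ⟨_, rfl⟩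
  have hp0 : 0 < p := (Fact.out : p.Prime).pos
  obtain ⟨C, hCd⟩ : ∃ C : Fin M × Option W → Finset (ZMod p), C = fun t =>
    match t.2 with
    | some w => univ.filter fun x => h t.1 x = w
    | none => univ.filter fun x => ¬ goodC n (h t.1) (h t.1 x) := ⟨_, rfl⟩
  have hCs : ∀ s w x, x ∈ C (s, some w) ↔ h s x = w := by
    intro s w x
    rw [hCd]
    simp
  have hCn : ∀ s x, x ∈ C (s, none) ↔ ¬ goodC n (h s) (h s x) := by
    intro s x
    rw [hCd]
    simp
  have hl : 4 * n * Fintype.card (Fin M × Option W) ≤ 2 ^ L := by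
    rw [Fintype.card_prod, Fintype.card_fin, Fintype.card_option]
    have h1 := Nat.lt_pow_succ_log_self (b := 2) (by norm_num) (n * M * (Fintype.card W + 1))
    calc 4 * n * (M * (Fintype.card W + 1)) = 4 * (n * M * (Fintype.card W + 1)) := by ring
      _ ≤ 4 * 2 ^ (Nat.log 2 (n * M * (Fintype.card W + 1))).succ := Nat.mul_le_mul_left _ h1.le
      _ = 2 ^ L := by
          rw [hL, Nat.succ_eq_add_one]
          ring
  obtain ⟨k, hk1, ⟨hkG, hkG2⟩, hkC⟩ := exists_gen3 (p := p) n hn hp C L hl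
  obtain ⟨κ, hκ⟩ : ∃ κ : Fin n → ZMod p, κ = fun i => ((k i : ℕ) : ZMod p) := ⟨_, rfl⟩
  rw [← hκ] at hkG hkG2
  have hinj : Function.Injective k := by
    intro i j hij
    by_contra hne
    refine hkG.sidon (i, i) (j, j) ⟨fun e => hne e.1, fun e => hne e.1⟩ ?_
    unfold ps
    rw [hκ]
    simp only
    rw [hij]
  have hB : sums p (univ.image k) = allS κ := by
    ext z
    rw [mem_allS]
    unfold sums
    rw [Finset.mem_image]
    constructor
    · rintro ⟨q, hq, rfl⟩
      rw [Finset.mem_product, Finset.mem_image, Finset.mem_image] at hq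
      obtain ⟨⟨i, -, hi⟩, ⟨j, -, hj⟩⟩ := hq
      refine ⟨(i, j), ?_⟩
      unfold ps
      rw [hκ]
      simp only
      rw [← hi, ← hj]
      push_cast
      rfl
    · rintro ⟨q, rfl⟩
      refine ⟨(k q.1, k q.2), ?_, ?_⟩
      · rw [Finset.mem_product]
        exact ⟨Finset.mem_image_of_mem _ (Finset.mem_univ _),
          Finset.mem_image_of_mem _ (Finset.mem_univ _)⟩
      · unfold ps
        rw [hκ]
        push_cast
        rfl
  refine ⟨univ.image k, ?_, ?_, ?_⟩
  · rw [Finset.card_image_of_injective _ hinj, Finset.card_univ, Fintype.card_fin]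
  · intro a ha
    obtain ⟨i, -, rfl⟩ := Finset.mem_image.mp ha
    exact hk1 i
  intro S T Ω _ _ D γ hγ herr hA hA2
  rw [hB] at herr
  have hcast : ((Nat.log 2 (n * M * (Fintype.card W + 1)) + 4 : ℕ) : ℝ) = ((L + 1 : ℕ) : ℝ) := by
    rw [hL]
  rw [hcast] at hA ⊢
  have hK : 2 * n ^ 2 ≤ Fintype.card (ZMod p) := by
    rw [ZMod.card]
    have h1 : n ^ 2 ≤ n ^ 12 := Nat.pow_le_pow_right hn (by norm_num)
    omega
  have f2 : ∀ (s : Fin M) (i : Fin n) (w : W) (J : Finset (Fin n)), (∀ j ∈ J, h s (κ i + κ j) = w) →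
      J.card ≤ L + 1 + 4 * n * (C (s, some w)).card / p := by
    intro s i w J hJ
    refine le_trans (Finset.card_le_card fun j hj => ?_) (hkC i (s, some w))
    have hj' := hJ j hj
    rw [hκ] at hj'
    exact Finset.mem_filter.mpr ⟨Finset.mem_univ _, (hCs s w _).2 hj'⟩
  have f3 : ∀ s : Fin M, ∑ w, (L + 1 + 4 * n * (C (s, some w)).card / p) ≤
      Fintype.card W * (L + 1) + 4 * n := by
    intro s
    rw [Finset.sum_add_distrib, Finset.sum_const, Finset.card_univ, smul_eq_mul]
    refine Nat.add_le_add_left ?_ _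
    have h1 : (∑ w, 4 * n * (C (s, some w)).card / p) * p ≤ 4 * n * p := by
      calc (∑ w, 4 * n * (C (s, some w)).card / p) * p
          = ∑ w, 4 * n * (C (s, some w)).card / p * p := Finset.sum_mul _ _ _
        _ ≤ ∑ w, 4 * n * (C (s, some w)).card :=
            Finset.sum_le_sum fun w _ => Nat.div_mul_le_self _ _
        _ = 4 * n * ∑ w, (C (s, some w)).card := (Finset.mul_sum _ _ _).symm
        _ = 4 * n * p := by
            congr 1
            have h2 := Finset.card_eq_sum_card_fiberwise (s := (univ : Finset (ZMod p)))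
              (t := (univ : Finset W)) (f := h s) fun z _ => Finset.mem_coe.mpr (Finset.mem_univ _)
            rw [Finset.card_univ, ZMod.card] at h2
            refine Eq.trans (Finset.sum_congr rfl fun w _ => ?_) h2.symm
            congr 1
            ext x
            rw [hCs, Finset.mem_filter]
            exact ⟨fun h3 => ⟨Finset.mem_univ _, h3⟩, fun h3 => h3.2⟩
    exact Nat.le_of_mul_le_mul_right h1 hp0
  have f4 : Fintype.card W < n ^ 2 → ∀ s : Fin M,
      (badC (h s) (allS κ) (goodC n (h s))).card ≤ n * (L + 1) := by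
    intro hW s
    have h1 : (C (s, none)).card ≤ Fintype.card W * (2 * n ^ 2) :=
      card_small (h s) _ fun x hx => (hCn s x).1 hx
    have h2 : 4 * n * (C (s, none)).card / p = 0 := by
      rw [Nat.div_eq_zero_iff]
      right
      have h3 : n ^ 5 ≤ n ^ 12 := Nat.pow_le_pow_right hn (by norm_num)
      have h4 : 0 < n ^ 12 := by positivity
      calc 4 * n * (C (s, none)).card ≤ 4 * n * (n ^ 2 * (2 * n ^ 2)) :=
            Nat.mul_le_mul_left _ (h1.trans (Nat.mul_le_mul_right _ hW.le))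
        _ = 8 * n ^ 5 := by ring
        _ < 16 * n ^ 12 := by omega
        _ ≤ p := hp
    have h3 : badC (h s) (allS κ) (goodC n (h s)) ⊆
        ((univ : Finset (Fin n × Fin n)).filter fun q => κ q.1 + κ q.2 ∈ C (s, none)).image
          fun q => κ q.1 + κ q.2 := by
      intro z hz
      rw [mem_badC, mem_allS] at hz
      obtain ⟨⟨q, rfl⟩, hz⟩ := hz
      rw [Finset.mem_image]
      exact ⟨q, Finset.mem_filter.mpr ⟨Finset.mem_univ _, (hCn s _).2 hz⟩, rfl⟩
    refine (Finset.card_le_card h3).trans (Finset.card_image_le.trans ?_)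
    have h4 : ((univ : Finset (Fin n × Fin n)).filter fun q => κ q.1 + κ q.2 ∈ C (s, none)).card =
        ∑ i, (univ.filter fun j => κ i + κ j ∈ C (s, none)).card := by
      rw [Finset.card_filter, ← Finset.univ_product_univ, Finset.sum_product]
      refine Finset.sum_congr rfl fun i _ => ?_
      rw [Finset.card_filter]
    rw [h4]
    calc ∑ i, (univ.filter fun j => κ i + κ j ∈ C (s, none)).card ≤ ∑ _i : Fin n, (L + 1) := by
          refine Finset.sum_le_sum fun i _ => ?_
          have h5 := hkC i (s, none)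
          rw [h2, Nat.add_zero] at h5
          refine le_trans (le_of_eq ?_) h5
          congr 1
          ext j
          rw [Finset.mem_filter, Finset.mem_filter, hκ]
      _ = n * (L + 1) := by rw [Finset.sum_const, Finset.card_univ, Fintype.card_fin, smul_eq_mul]
  exact wide_core hn hK hkG hkG2 h (L + 1) (by omega)
    (fun s w => L + 1 + 4 * n * (C (s, some w)).card / p) f2 f3 f4 D γ hγ herr hA hA2

end GGM3
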